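import Pool.Agent.Lib_helper65.SPB.FewOps3

/-! Few operators theorem, part 4: the asymptotic form. -/

namespace SPB65

open Finset Filter

/-- logarithms are eventually small -/
lemma log_eventually (A B c : ℝ) (hc : 0 < c) :
    ∀ᶠ N : ℕ in atTop, A + B * Real.log N ≤ c * N := by
  have h1 : ∀ᶠ x : ℝ in atTop, ‖Real.log x‖ ≤ c / (2 * (|B| + 1)) * ‖x‖ :=
    Real.isLittleO_log_id_atTop.def (by positivity)
  have h1' : ∀ᶠ N : ℕ in atTop, ‖Real.log N‖ ≤ c / (2 * (|B| + 1)) * ‖(N : ℝ)‖ :=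
    tendsto_natCast_atTop_atTop.eventually h1
  have h2 : ∀ᶠ N : ℕ in atTop, 2 * A / c ≤ (N : ℝ) :=
    tendsto_natCast_atTop_atTop.eventually (eventually_ge_atTop _)
  filter_upwards [h1', h2] with N h1 h2
  rw [Real.norm_eq_abs, Real.norm_eq_abs, abs_of_nonneg (Nat.cast_nonneg N : (0 : ℝ) ≤ (N : ℝ))] at h1
  rw [div_le_iff₀ hc] at h2
  have h3 : B * Real.log N ≤ |B| * |Real.log N| := by
    rw [← abs_mul]; exact le_abs_self _
  have h4 : |B| * |Real.log N| ≤ (|B| + 1) * (c / (2 * (|B| + 1)) * N) := by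
    have := abs_nonneg B
    have := abs_nonneg (Real.log N)
    calc |B| * |Real.log N| ≤ (|B| + 1) * |Real.log N| := by nlinarith
      _ ≤ _ := by gcongr
  have h5 : (|B| + 1) * (c / (2 * (|B| + 1)) * N) = c / 2 * N := by
    have : |B| + 1 ≠ 0 := by positivity
    field_simp
  linarith

open Classical in
/-- **The few operators theorem.** For all large dimensions `N = card κ`, all families of at most
`N` operators of norm at most `2` and all sample sizes `N² ≤ m ≤ N ^ q`, at most one eighth of the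
samples are bad. -/
theorem few_operators {C ρ : ℝ} (hC : 1 ≤ C) (hρ : 0 < ρ) (hρ1 : ρ ≤ 1) (q : ℕ) :
    ∃ N₀ : ℕ, ∀ (κ P : Type) [Fintype κ] [DecidableEq κ] [Fintype P] [DecidableEq P] [Nonempty P]
      (U : P → EuclideanSpace ℝ κ →L[ℝ] EuclideanSpace ℝ κ), (∀ p, ‖U p‖ ≤ 2) →
      N₀ ≤ Fintype.card κ → Fintype.card P ≤ Fintype.card κ →
      ∀ m : ℕ, Fintype.card κ ^ 2 ≤ m → m ≤ Fintype.card κ ^ q →
        ((univ.filter fun ε : Fin m → κ → Bool => BadSample U C ρ ε).card : ℝ) ≤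
          1 / 8 * (2 ^ Fintype.card κ) ^ m := by
  obtain ⟨k, hk⟩ := exists_nat_ge (400 / ρ ^ 2)
  set a : ℝ := 80 / ρ ^ 2 + 3 with ha
  have ha0 : 0 < a := by positivity
  set c : ℝ := ρ ^ 4 / (17 * (2 * k + 1)) with hc
  have hc0 : 0 < c := by positivity
  have hev := log_eventually (3 + Real.log a + k * Real.log 2) (1 + k * (q + 1)) c hc0
  obtain ⟨N₀, hN₀⟩ := eventually_atTop.1 hev
  refine ⟨max N₀ 1, fun κ P _ _ _ _ _ U hU hN hP m hm1 hm2 => ?_⟩
  set n := Fintype.card κ with hn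
  have hn1 : 1 ≤ n := (le_max_right _ _).trans hN
  have hκ : Nonempty κ := Fintype.card_pos_iff.1 (by omega)
  have hnR : (1 : ℝ) ≤ n := by exact_mod_cast hn1
  have hm0 : 0 < m := lt_of_lt_of_le (by positivity) hm1
  have hmR : (1 : ℝ) ≤ m := by exact_mod_cast hm0
  have hkey := hN₀ n ((le_max_left _ _).trans hN)
  set L : ℕ := ⌈80 * (n : ℝ) / ρ ^ 2 + 2⌉₊ with hLdef
  have hL : 80 * (n : ℝ) / ρ ^ 2 + 2 ≤ L := Nat.le_ceil _
  have hLa : (L : ℝ) ≤ a * n := by
    have h1 : (L : ℝ) < 80 * (n : ℝ) / ρ ^ 2 + 2 + 1 := Nat.ceil_lt_add_one (by positivity)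
    have h2 : a * n = 80 * (n : ℝ) / ρ ^ 2 + 3 * n := by rw [ha]; ring
    rw [h2]; linarith
  have hL0 : (0 : ℝ) < L := lt_of_lt_of_le (by positivity) hL
  have h := few_operators_count U hU hC hρ hρ1 hm0 hk hL
  refine h.trans ?_
  rw [← mul_assoc]
  refine mul_le_mul_of_nonneg_right ?_ (by positivity)
  -- logarithmic comparison
  have hP0 : (0 : ℝ) < Fintype.card P := Nat.cast_pos.2 Fintype.card_pos
  have hlogL : Real.log L ≤ Real.log a + Real.log n := by
    rw [← Real.log_mul ha0.ne' (by positivity)]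
    exact Real.log_le_log hL0 hLa
  have hlogM : Real.log (m * Fintype.card P * 2) ≤ Real.log 2 + (q + 1) * Real.log n := by
    have h1 : (m : ℝ) * Fintype.card P * 2 ≤ 2 * (n : ℝ) ^ (q + 1) := by
      have h2 : (m : ℝ) ≤ (n : ℝ) ^ q := by exact_mod_cast hm2
      have h3 : (Fintype.card P : ℝ) ≤ n := by exact_mod_cast hP
      calc (m : ℝ) * Fintype.card P * 2 ≤ (n : ℝ) ^ q * n * 2 := by gcongr
        _ = 2 * (n : ℝ) ^ (q + 1) := by rw [pow_succ]; ring
    refine (Real.log_le_log (by positivity) h1).trans (le_of_eq ?_)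
    rw [Real.log_mul (by norm_num) (by positivity), Real.log_pow]
    push_cast; ring
  have hlogn : 0 ≤ Real.log n := Real.log_nonneg hnR
  have hfin : (L : ℝ) ^ (n ^ 2) * ((m * Fintype.card P * 2 : ℝ) ^ k) ^ m *
      Real.exp (-(ρ ^ 4 * n / 17 * (m / (2 * k + 1)))) ≤ Real.exp (-3) := by
    have e1 : (L : ℝ) ^ (n ^ 2) = Real.exp ((n ^ 2 : ℕ) * Real.log L) := by
      rw [Real.exp_nat_mul, Real.exp_log hL0]
    have e2 : ((m * Fintype.card P * 2 : ℝ) ^ k) ^ m =
        Real.exp ((m : ℕ) * ((k : ℕ) * Real.log (m * Fintype.card P * 2))) := by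
      rw [Real.exp_nat_mul, Real.exp_nat_mul, Real.exp_log (by positivity)]
    rw [e1, e2, ← Real.exp_add, ← Real.exp_add]
    refine Real.exp_le_exp.2 ?_
    have hn2m : ((n ^ 2 : ℕ) : ℝ) ≤ m := by exact_mod_cast hm1
    have hA : 0 ≤ Real.log a + Real.log n := by
      have : 0 ≤ Real.log a := Real.log_nonneg (by
        rw [ha]
        have : 0 ≤ 80 / ρ ^ 2 := by positivity
        linarith)
      linarith
    have t1 : ((n ^ 2 : ℕ) : ℝ) * Real.log L ≤ m * (Real.log a + Real.log n) := by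
      calc ((n ^ 2 : ℕ) : ℝ) * Real.log L ≤ ((n ^ 2 : ℕ) : ℝ) * (Real.log a + Real.log n) := by
            gcongr
        _ ≤ m * (Real.log a + Real.log n) := by gcongr
    have t2 : (m : ℝ) * (k * Real.log (m * Fintype.card P * 2)) ≤
        m * (k * (Real.log 2 + (q + 1) * Real.log n)) := by gcongr
    have t3 : ρ ^ 4 * n / 17 * (m / (2 * k + 1)) = m * (c * n) := by
      rw [hc]
      have : (2 * (k : ℝ) + 1) ≠ 0 := by positivity
      field_simp
    rw [t3]
    have t4 : (m : ℝ) * (Real.log a + Real.log n) + m * (k * (Real.log 2 + (q + 1) * Real.log n)) +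
        -(m * (c * n)) = m * (Real.log a + k * Real.log 2 + (1 + k * (q + 1)) * Real.log n - c * n) := by
      ring
    have t5 : Real.log a + k * Real.log 2 + (1 + k * (q + 1)) * Real.log n - c * n ≤ -3 := by
      linarith
    have t6 : (m : ℝ) * (Real.log a + k * Real.log 2 + (1 + k * (q + 1)) * Real.log n - c * n) ≤
        1 * (-3) := by nlinarith
    linarith
  refine hfin.trans ?_
  have h8 : (8 : ℝ) ≤ Real.exp 3 := by
    have h1 : (2 : ℝ) ≤ Real.exp 1 := by
      have := Real.add_one_le_exp (1 : ℝ); linarith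
    have h2 : Real.exp 3 = Real.exp 1 ^ 3 := by
      rw [← Real.exp_nat_mul]; norm_num
    rw [h2]
    calc (8 : ℝ) = 2 ^ 3 := by norm_num
      _ ≤ Real.exp 1 ^ 3 := by gcongr
  rw [Real.exp_neg, inv_eq_one_div]
  exact one_div_le_one_div_of_le (by norm_num) h8

end SPB65
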