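import Pool.Agent.Lib_helper65.SPB.SmallBall

/-! Few operators theorem, part 1: operator small ball, Maurey's lemma, nets of operators. -/

namespace SPB65

open Finset

section defs

variable {κ : Type*} [Fintype κ] [DecidableEq κ]

/-- the normalised sign vector -/
noncomputable def gv (ε : κ → Bool) : EuclideanSpace ℝ κ :=
  WithLp.toLp 2 fun c => (Real.sqrt (Fintype.card κ))⁻¹ * sg (ε c)

/-- squared Hilbert-Schmidt norm -/
noncomputable def hs2 (A : EuclideanSpace ℝ κ →L[ℝ] EuclideanSpace ℝ κ) : ℝ :=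
  ∑ c, ‖A (EuclideanSpace.single c (1 : ℝ))‖ ^ 2

lemma gv_eq (ε : κ → Bool) :
    gv ε = ∑ c, sg (ε c) • ((Real.sqrt (Fintype.card κ))⁻¹ • EuclideanSpace.single c (1 : ℝ)) := by
  ext d
  simp only [gv, WithLp.ofLp_sum, WithLp.ofLp_smul, Finset.sum_apply, Pi.smul_apply,
    EuclideanSpace.single_apply, smul_eq_mul]
  rw [Finset.sum_eq_single d]
  · simp; ring
  · intro c _ hc
    rw [if_neg (Ne.symm hc)]; ring
  · simp

lemma norm_gv [Nonempty κ] (ε : κ → Bool) : ‖gv ε‖ = 1 := by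
  rw [EuclideanSpace.norm_eq]
  have h : ∀ c, ‖gv ε c‖ ^ 2 = (Fintype.card κ : ℝ)⁻¹ := by
    intro c
    rw [Real.norm_eq_abs, sq_abs]
    change ((Real.sqrt (Fintype.card κ))⁻¹ * sg (ε c)) ^ 2 = _
    rw [mul_pow, sg_sq, mul_one, inv_pow, Real.sq_sqrt (Nat.cast_nonneg _)]
  simp only [h]
  rw [Finset.sum_const, Finset.card_univ, nsmul_eq_mul, mul_inv_cancel₀, Real.sqrt_one]
  exact Nat.cast_ne_zero.2 Fintype.card_ne_zero

lemma hs2_nonneg (A : EuclideanSpace ℝ κ →L[ℝ] EuclideanSpace ℝ κ) : 0 ≤ hs2 A :=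
  Finset.sum_nonneg fun _ _ => by positivity

lemma hs2_neg_sub (A B : EuclideanSpace ℝ κ →L[ℝ] EuclideanSpace ℝ κ) :
    hs2 (A - B) = hs2 (B - A) := by
  unfold hs2
  refine Finset.sum_congr rfl fun c _ => ?_
  rw [ContinuousLinearMap.sub_apply, ContinuousLinearMap.sub_apply, norm_sub_rev]

/-- `hs2` is the square of a norm: triangle inequality -/
lemma sqrt_hs2_add (A B : EuclideanSpace ℝ κ →L[ℝ] EuclideanSpace ℝ κ) :
    Real.sqrt (hs2 (A + B)) ≤ Real.sqrt (hs2 A) + Real.sqrt (hs2 B) := by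
  have key : ∀ A : EuclideanSpace ℝ κ →L[ℝ] EuclideanSpace ℝ κ, Real.sqrt (hs2 A) =
      ‖(WithLp.toLp 2 fun c => ‖A (EuclideanSpace.single c (1 : ℝ))‖ : EuclideanSpace ℝ κ)‖ := by
    intro A
    rw [EuclideanSpace.norm_eq]
    congr 1
    refine Finset.sum_congr rfl fun c _ => ?_
    simp
  have h1 : hs2 (A + B) ≤ ‖(WithLp.toLp 2 fun c => ‖A (EuclideanSpace.single c (1 : ℝ))‖ :
      EuclideanSpace ℝ κ) + (WithLp.toLp 2 fun c => ‖B (EuclideanSpace.single c (1 : ℝ))‖ :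
      EuclideanSpace ℝ κ)‖ ^ 2 := by
    rw [EuclideanSpace.norm_eq, Real.sq_sqrt (Finset.sum_nonneg fun _ _ => by positivity)]
    refine Finset.sum_le_sum fun c _ => ?_
    simp only [PiLp.add_apply, ContinuousLinearMap.add_apply, Real.norm_eq_abs, sq_abs]
    exact pow_le_pow_left₀ (norm_nonneg _) (norm_add_le _ _) 2
  rw [key A, key B]
  calc Real.sqrt (hs2 (A + B)) ≤ Real.sqrt (‖_‖ ^ 2) := Real.sqrt_le_sqrt h1
    _ = ‖_‖ := Real.sqrt_sq (norm_nonneg _)
    _ ≤ _ := norm_add_le _ _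

lemma norm_le_sqrt_hs2 (A : EuclideanSpace ℝ κ →L[ℝ] EuclideanSpace ℝ κ) :
    ‖A‖ ≤ Real.sqrt (hs2 A) := by
  refine A.opNorm_le_bound (Real.sqrt_nonneg _) fun x => ?_
  have hx : x = ∑ c, x c • EuclideanSpace.single c (1 : ℝ) := by
    ext d
    simp only [WithLp.ofLp_sum, WithLp.ofLp_smul, Finset.sum_apply, Pi.smul_apply,
      EuclideanSpace.single_apply, smul_eq_mul]
    rw [Finset.sum_eq_single d]
    · simp
    · intro c _ hc
      rw [if_neg (Ne.symm hc)]; ring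
    · simp
  calc ‖A x‖ = ‖∑ c, x c • A (EuclideanSpace.single c (1 : ℝ))‖ := by
        conv_lhs => rw [hx]
        rw [map_sum]
        simp only [map_smul]
    _ ≤ ∑ c, ‖x c‖ * ‖A (EuclideanSpace.single c (1 : ℝ))‖ := by
        refine (norm_sum_le _ _).trans (le_of_eq ?_)
        exact Finset.sum_congr rfl fun c _ => norm_smul _ _
    _ ≤ Real.sqrt (∑ c, ‖x c‖ ^ 2) * Real.sqrt (∑ c, ‖A (EuclideanSpace.single c (1 : ℝ))‖ ^ 2) :=
        Real.sum_mul_le_sqrt_mul_sqrt _ _ _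
    _ = Real.sqrt (hs2 A) * ‖x‖ := by
        rw [EuclideanSpace.norm_eq, mul_comm]; rfl

/-- **Small ball for operators applied to a random sign vector.** -/
theorem op_small_ball [Nonempty κ] (A : EuclideanSpace ℝ κ →L[ℝ] EuclideanSpace ℝ κ)
    (z : EuclideanSpace ℝ κ) {B : ℝ} (hB : 0 < B) (hA : ‖A‖ ≤ B) :
    ((univ.filter fun ε : κ → Bool =>
      ‖A (gv ε) - z‖ ^ 2 ≤ hs2 A / (4 * Fintype.card κ)).card : ℝ) ≤
      2 ^ Fintype.card κ * Real.exp (-(hs2 A / (16 * B ^ 2))) := by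
  have hN : (0 : ℝ) < Fintype.card κ := Nat.cast_pos.2 Fintype.card_pos
  set N : ℝ := (Fintype.card κ : ℝ) with hNdef
  set r : ℝ := (Real.sqrt N)⁻¹ with hr
  have hr2 : r ^ 2 = N⁻¹ := by rw [hr, inv_pow, Real.sq_sqrt hN.le]
  have h := small_ball_card (fun c => r • A (EuclideanSpace.single c (1 : ℝ))) (-z)
    (s := B ^ 2 / N) (by positivity) (fun t => by
      have e1 : ∑ c, t c • (r • A (EuclideanSpace.single c (1 : ℝ))) =
          r • A (WithLp.toLp 2 t) := by
        have : (WithLp.toLp 2 t : EuclideanSpace ℝ κ) =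
            ∑ c, t c • EuclideanSpace.single c (1 : ℝ) := by
          ext d
          simp only [WithLp.ofLp_sum, WithLp.ofLp_smul, Finset.sum_apply, Pi.smul_apply,
            EuclideanSpace.single_apply, smul_eq_mul]
          rw [Finset.sum_eq_single d]
          · simp
          · intro c _ hc
            rw [if_neg (Ne.symm hc)]; ring
          · simp
        rw [this, map_sum, Finset.smul_sum]
        refine Finset.sum_congr rfl fun c _ => ?_
        rw [map_smul, smul_comm]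
      rw [e1, norm_smul, mul_pow, Real.norm_eq_abs, sq_abs, hr2]
      have e2 : ‖A (WithLp.toLp 2 t)‖ ≤ B * ‖(WithLp.toLp 2 t : EuclideanSpace ℝ κ)‖ :=
        (A.le_opNorm _).trans (mul_le_mul_of_nonneg_right hA (norm_nonneg _))
      have e3 : ‖(WithLp.toLp 2 t : EuclideanSpace ℝ κ)‖ ^ 2 = ∑ c, t c ^ 2 := by
        rw [EuclideanSpace.norm_eq, Real.sq_sqrt (Finset.sum_nonneg fun _ _ => by positivity)]
        refine Finset.sum_congr rfl fun c _ => ?_
        simp
      calc N⁻¹ * ‖A (WithLp.toLp 2 t)‖ ^ 2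
          ≤ N⁻¹ * (B * ‖(WithLp.toLp 2 t : EuclideanSpace ℝ κ)‖) ^ 2 := by gcongr
        _ = B ^ 2 / N * ∑ c, t c ^ 2 := by rw [mul_pow, e3]; ring)
  have hsum : ∑ c, ‖r • A (EuclideanSpace.single c (1 : ℝ))‖ ^ 2 = hs2 A / N := by
    unfold hs2
    rw [Finset.sum_div]
    refine Finset.sum_congr rfl fun c _ => ?_
    rw [norm_smul, mul_pow, Real.norm_eq_abs, sq_abs, hr2]; ring
  rw [hsum] at h
  have e4 : hs2 A / N / (16 * (B ^ 2 / N)) = hs2 A / (16 * B ^ 2) := by
    field_simp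
  rw [e4] at h
  refine le_trans (le_of_eq ?_) h
  congr 2
  ext ε
  simp only [mem_filter, mem_univ, true_and]
  have e5 : -z + ∑ c, sg (ε c) • (r • A (EuclideanSpace.single c (1 : ℝ))) = A (gv ε) - z := by
    rw [gv_eq, map_sum, neg_add_eq_sub]
    congr 1
    refine Finset.sum_congr rfl fun c _ => ?_
    rw [map_smul, map_smul]
  rw [e5]
  have e6 : hs2 A / (4 * N) = hs2 A / N / 4 := by
    rw [div_div, mul_comm]
  rw [e6]

end defs

section maurey

variable {H : Type*} [NormedAddCommGroup H] [InnerProductSpace ℝ H]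

lemma greedy {A : Type*} [Fintype A] (π : A → ℝ) (hπ : ∀ a, 0 ≤ π a) (h1 : ∑ a, π a = 1)
    (W : A → H) {D : ℝ} (hW : ∀ a, ‖W a‖ ≤ D) (k : ℕ) :
    ∃ j : Fin k → A, ‖∑ l, W (j l) - (k : ℝ) • ∑ a, π a • W a‖ ^ 2 ≤ k * D ^ 2 := by
  set x := ∑ a, π a • W a with hx
  induction k with
  | zero => exact ⟨Fin.elim0, by simp⟩
  | succ k ih =>
    obtain ⟨j, hj⟩ := ih
    set S := ∑ l, W (j l) - (k : ℝ) • x with hS
    have hD : 0 ≤ D := by
      have hne : Nonempty A := by
        by_contra hne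
        rw [not_nonempty_iff] at hne
        simp at h1
      exact (norm_nonneg _).trans (hW hne.some)
    have hav : ∑ a, π a * ‖S + (W a - x)‖ ^ 2 ≤ (k + 1) * D ^ 2 := by
      have e1 : ∀ a, π a * ‖S + (W a - x)‖ ^ 2 =
          π a * ‖S‖ ^ 2 + 2 * inner ℝ S (π a • (W a - x)) + π a * ‖W a - x‖ ^ 2 := by
        intro a
        rw [norm_add_sq_real, inner_smul_right]; ring
      have e2 : ∑ a, π a • (W a - x) = 0 := by
        simp only [smul_sub]
        rw [Finset.sum_sub_distrib, ← Finset.sum_smul, h1, one_smul, ← hx, sub_self]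
      have e3 : ∑ a, π a * ‖W a - x‖ ^ 2 = ∑ a, π a * ‖W a‖ ^ 2 - ‖x‖ ^ 2 := by
        have e4 : ∀ a, π a * ‖W a - x‖ ^ 2 =
            π a * ‖W a‖ ^ 2 - 2 * inner ℝ (π a • W a) x + π a * ‖x‖ ^ 2 := by
          intro a
          rw [norm_sub_sq_real, real_inner_smul_left]; ring
        simp only [e4]
        rw [Finset.sum_add_distrib, Finset.sum_sub_distrib, ← Finset.mul_sum, ← Finset.sum_mul,
          h1, ← sum_inner, ← hx, real_inner_self_eq_norm_sq]
        ring
      have e5 : ∑ a, π a * ‖W a‖ ^ 2 ≤ D ^ 2 := by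
        calc ∑ a, π a * ‖W a‖ ^ 2 ≤ ∑ a, π a * D ^ 2 :=
              Finset.sum_le_sum fun a _ => mul_le_mul_of_nonneg_left
                (pow_le_pow_left₀ (norm_nonneg _) (hW a) 2) (hπ a)
          _ = D ^ 2 := by rw [← Finset.sum_mul, h1, one_mul]
      simp only [e1]
      rw [Finset.sum_add_distrib, Finset.sum_add_distrib, ← Finset.sum_mul, h1,
        ← Finset.mul_sum, ← inner_sum, e2, inner_zero_right, e3]
      nlinarith [sq_nonneg ‖x‖]
    obtain ⟨a, ha⟩ : ∃ a, ‖S + (W a - x)‖ ^ 2 ≤ (k + 1) * D ^ 2 := by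
      by_contra hcon
      push Not at hcon
      have hpos : ∃ a, 0 < π a := by
        by_contra h0
        push Not at h0
        have : ∑ a, π a ≤ 0 := Finset.sum_nonpos fun a _ => h0 a
        linarith
      obtain ⟨a₀, ha₀⟩ := hpos
      have : 0 < ∑ a, π a * (‖S + (W a - x)‖ ^ 2 - (k + 1) * D ^ 2) :=
        Finset.sum_pos' (fun a _ => mul_nonneg (hπ a) (by linarith [hcon a]))
          ⟨a₀, mem_univ _, mul_pos ha₀ (by linarith [hcon a₀])⟩
      simp only [mul_sub] at this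
      rw [Finset.sum_sub_distrib, ← Finset.sum_mul, h1] at this
      linarith
    refine ⟨Fin.cons a j, ?_⟩
    rw [Fin.sum_univ_succ]
    simp only [Fin.cons_zero, Fin.cons_succ]
    have e : W a + ∑ l, W (j l) - ((k + 1 : ℕ) : ℝ) • x = S + (W a - x) := by
      rw [hS]; push_cast; rw [add_smul, one_smul]; abel
    rw [e]
    push_cast
    exact ha

/-- **Maurey's lemma.** -/
theorem maurey {ι : Type*} [Fintype ι] [Nonempty ι] (w : ι → H) {D : ℝ} (hw : ∀ l, ‖w l‖ ≤ D)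
    {lam : ι → ℝ} {C : ℝ} (hC : 0 < C) (hlam : ∑ l, |lam l| ≤ C) {k : ℕ} (hk : 0 < k) :
    ∃ j : Fin k → ι × Bool,
      ‖∑ l, (C / k * sg (j l).2) • w (j l).1 - ∑ l, lam l • w l‖ ≤ C * D / Real.sqrt k := by
  classical
  set n : ℝ := (Fintype.card ι : ℝ) with hn
  have hn0 : 0 < n := Nat.cast_pos.2 Fintype.card_pos
  set r : ℝ := 1 - (∑ l, |lam l|) / C with hr
  have hr0 : 0 ≤ r := by
    rw [hr, sub_nonneg, div_le_one hC]; exact hlam
  let π : ι × Bool → ℝ := fun a => (|lam a.1| + sg a.2 * lam a.1) / (2 * C) + r / (2 * n)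
  have hπ : ∀ a, 0 ≤ π a := by
    rintro ⟨l, b⟩
    have h1 : 0 ≤ |lam l| + sg b * lam l := by
      cases b
      · simp only [sg_false]; linarith [le_abs_self (lam l)]
      · simp only [sg_true]; linarith [neg_abs_le (lam l)]
    have h2 : 0 ≤ (|lam l| + sg b * lam l) / (2 * C) := by positivity
    have h3 : 0 ≤ r / (2 * n) := by positivity
    exact add_nonneg h2 h3
  have hsum : ∑ a, π a = 1 := by
    rw [Fintype.sum_prod_type]
    simp only [Fintype.sum_bool, π, sg_true, sg_false]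
    have : ∀ l, (|lam l| + 1 * lam l) / (2 * C) + r / (2 * n) +
        ((|lam l| + -1 * lam l) / (2 * C) + r / (2 * n)) = |lam l| / C + r / n := by
      intro l; field_simp; ring
    simp only [this]
    rw [Finset.sum_add_distrib, Finset.sum_const, Finset.card_univ, nsmul_eq_mul,
      ← Finset.sum_div, ← hn, hr]
    field_simp
    ring
  have hx : ∑ a : ι × Bool, π a • ((C * sg a.2) • w a.1) = ∑ l, lam l • w l := by
    rw [Fintype.sum_prod_type]
    refine Finset.sum_congr rfl fun l _ => ?_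
    simp only [Fintype.sum_bool, π, sg_true, sg_false]
    rw [smul_smul, smul_smul, ← add_smul]
    congr 1
    field_simp
    ring
  obtain ⟨j, hj⟩ := greedy π hπ hsum (fun a => (C * sg a.2) • w a.1) (D := C * D) (fun a => by
    rw [norm_smul, Real.norm_eq_abs, abs_mul, abs_of_pos hC]
    have : |sg a.2| = 1 := by cases a.2 <;> simp [sg]
    rw [this, mul_one]
    exact mul_le_mul_of_nonneg_left (hw _) hC.le) k
  refine ⟨j, ?_⟩
  rw [hx] at hj
  have hk0 : (0 : ℝ) < k := Nat.cast_pos.2 hk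
  have hD : 0 ≤ D := (norm_nonneg _).trans (hw (Classical.arbitrary ι))
  have e : ∑ l, (C / k * sg (j l).2) • w (j l).1 - ∑ l, lam l • w l =
      (k : ℝ)⁻¹ • (∑ l, (C * sg (j l).2) • w (j l).1 - (k : ℝ) • ∑ l, lam l • w l) := by
    rw [smul_sub, smul_smul, inv_mul_cancel₀ hk0.ne', one_smul, Finset.smul_sum]
    congr 1
    refine Finset.sum_congr rfl fun l _ => ?_
    rw [smul_smul]; congr 1; ring
  rw [e, norm_smul, Real.norm_eq_abs, abs_of_pos (inv_pos.2 hk0)]
  have h2 : ‖∑ l, (C * sg (j l).2) • w (j l).1 - (k : ℝ) • ∑ l, lam l • w l‖ ≤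
      Real.sqrt k * (C * D) := by
    refine (Real.le_sqrt (norm_nonneg _) (by positivity)).2 hj |>.trans (le_of_eq ?_)
    rw [Real.sqrt_mul hk0.le, Real.sqrt_sq (by positivity)]
  calc (k : ℝ)⁻¹ * ‖_‖ ≤ (k : ℝ)⁻¹ * (Real.sqrt k * (C * D)) := by gcongr
    _ = C * D / Real.sqrt k := by
      have h3 : Real.sqrt k * Real.sqrt k = k := Real.mul_self_sqrt hk0.le
      have h4 : Real.sqrt k ≠ 0 := (Real.sqrt_pos.2 hk0).ne'
      field_simp
      nlinarith

end maurey

section net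

variable {κ : Type*} [Fintype κ] [DecidableEq κ]

/-- the operator with given matrix -/
noncomputable def ofMat (t : κ → κ → ℝ) : EuclideanSpace ℝ κ →L[ℝ] EuclideanSpace ℝ κ :=
  LinearMap.toContinuousLinearMap
    ((EuclideanSpace.basisFun κ ℝ).toBasis.constr ℝ fun d => WithLp.toLp 2 fun c => t d c)

lemma ofMat_single (t : κ → κ → ℝ) (d : κ) :
    ofMat t (EuclideanSpace.single d (1 : ℝ)) = WithLp.toLp 2 fun c => t d c := by
  have h : (EuclideanSpace.basisFun κ ℝ).toBasis d = EuclideanSpace.single d (1 : ℝ) := by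
    simp
  unfold ofMat
  rw [LinearMap.coe_toContinuousLinearMap', ← h, Module.Basis.constr_basis]

/-- **Net of operators.** -/
theorem exists_net [Nonempty κ] {B δ : ℝ} (hδ : 0 < δ) (L : ℕ)
    (hL : 2 * B * Fintype.card κ / δ + 2 ≤ L) :
    ∃ 𝒩 : Finset (EuclideanSpace ℝ κ →L[ℝ] EuclideanSpace ℝ κ),
      𝒩.card ≤ L ^ (Fintype.card κ ^ 2) ∧
      ∀ T : EuclideanSpace ℝ κ →L[ℝ] EuclideanSpace ℝ κ, ‖T‖ ≤ B → ∃ T' ∈ 𝒩,
        hs2 (T - T') ≤ δ ^ 2 := by
  classical
  have hN : (0 : ℝ) < Fintype.card κ := Nat.cast_pos.2 Fintype.card_pos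
  set N : ℝ := (Fintype.card κ : ℝ) with hNdef
  let f : (κ → κ → Fin L) → (EuclideanSpace ℝ κ →L[ℝ] EuclideanSpace ℝ κ) := fun n =>
    ofMat fun d c => -B + (n d c : ℕ) * (δ / N)
  refine ⟨univ.image f, ?_, ?_⟩
  · refine card_image_le.trans (le_of_eq ?_)
    rw [Finset.card_univ, Fintype.card_fun, Fintype.card_fun, Fintype.card_fin, ← pow_mul, sq]
  · intro T hT
    have hB : 0 ≤ B := (norm_nonneg _).trans hT
    let t : κ → κ → ℝ := fun d c => T (EuclideanSpace.single d (1 : ℝ)) c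
    have ht : ∀ d c, |t d c| ≤ B := by
      intro d c
      have h1 : ‖T (EuclideanSpace.single d (1 : ℝ)) c‖ ≤ ‖T (EuclideanSpace.single d (1 : ℝ))‖ :=
        PiLp.norm_apply_le _ _
      have h2 : ‖T (EuclideanSpace.single d (1 : ℝ))‖ ≤ B := by
        refine (T.le_opNorm _).trans ?_
        simpa using hT
      exact h1.trans h2
    have hq : 0 < δ / N := by positivity
    have hfl : ∀ d c, ⌊(t d c + B) / (δ / N)⌋₊ < L := by
      intro d c
      have h1 : (t d c + B) / (δ / N) ≤ 2 * B * N / δ := by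
        rw [div_le_iff₀ hq]
        have h2 : 2 * B * N / δ * (δ / N) = 2 * B := by field_simp
        rw [h2]
        linarith [(abs_le.1 (ht d c)).2]
      have h3 : (⌊(t d c + B) / (δ / N)⌋₊ : ℝ) ≤ (t d c + B) / (δ / N) :=
        Nat.floor_le (div_nonneg (by linarith [(abs_le.1 (ht d c)).1]) hq.le)
      have h4 : (⌊(t d c + B) / (δ / N)⌋₊ : ℝ) < L := by linarith
      exact_mod_cast h4
    refine ⟨f fun d c => ⟨⌊(t d c + B) / (δ / N)⌋₊, hfl d c⟩, mem_image_of_mem _ (mem_univ _), ?_⟩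
    have hentry : ∀ d c, |t d c - (-B + (⌊(t d c + B) / (δ / N)⌋₊ : ℝ) * (δ / N))| ≤ δ / N := by
      intro d c
      have h0 : 0 ≤ (t d c + B) / (δ / N) :=
        div_nonneg (by linarith [(abs_le.1 (ht d c)).1]) hq.le
      have h3 : (⌊(t d c + B) / (δ / N)⌋₊ : ℝ) ≤ (t d c + B) / (δ / N) := Nat.floor_le h0
      have h4 : (t d c + B) / (δ / N) < (⌊(t d c + B) / (δ / N)⌋₊ : ℝ) + 1 := Nat.lt_floor_add_one _
      rw [le_div_iff₀ hq] at h3
      rw [div_lt_iff₀ hq] at h4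
      rw [abs_le]
      constructor <;> nlinarith
    have hsq : hs2 (T - f fun d c => ⟨⌊(t d c + B) / (δ / N)⌋₊, hfl d c⟩) =
        ∑ d, ∑ c, (t d c - (-B + (⌊(t d c + B) / (δ / N)⌋₊ : ℝ) * (δ / N))) ^ 2 := by
      unfold hs2
      refine Finset.sum_congr rfl fun d _ => ?_
      rw [ContinuousLinearMap.sub_apply, ofMat_single, EuclideanSpace.norm_eq,
        Real.sq_sqrt (Finset.sum_nonneg fun _ _ => by positivity)]
      refine Finset.sum_congr rfl fun c _ => ?_
      rw [Real.norm_eq_abs, sq_abs]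
      rfl
    rw [hsq]
    calc _ ≤ ∑ d : κ, ∑ c : κ, (δ / N) ^ 2 :=
          Finset.sum_le_sum fun d _ => Finset.sum_le_sum fun c _ => by
            rw [← sq_abs]
            exact pow_le_pow_left₀ (abs_nonneg _) (hentry d c) 2
      _ = δ ^ 2 := by
          simp only [Finset.sum_const, Finset.card_univ, nsmul_eq_mul]
          rw [← hNdef]
          field_simp

end net

end SPB65
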