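import Mathlib

/-! Few operators theorem, part 2: sparse independent sets and product counting. -/

namespace SPB65

open Finset

/-- greedy independent set in a digraph of bounded out-degree -/
theorem exists_indep {V : Type*} [DecidableEq V] {k : ℕ} (J : V → Finset V)
    (hJ : ∀ i, (J i).card ≤ k) (S : Finset V) :
    ∃ I ⊆ S, S.card ≤ (2 * k + 1) * I.card ∧ ∀ i ∈ I, ∀ j ∈ I, i ≠ j → j ∉ J i := by
  induction S using Finset.strongInduction with
  | H S ih =>
    rcases S.eq_empty_or_nonempty with rfl | hne
    · exact ⟨∅, subset_rfl, by simp, by simp⟩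
    · -- a vertex of small in-degree
      obtain ⟨i, hi, hin⟩ : ∃ i ∈ S, (S.filter fun j => i ∈ J j).card ≤ k := by
        by_contra hcon
        push Not at hcon
        have h1 : ∑ i ∈ S, (S.filter fun j => i ∈ J j).card = ∑ j ∈ S, (S.filter fun i => i ∈ J j).card := by
          simp only [card_filter]
          rw [sum_comm]
        have h2 : ∑ j ∈ S, (S.filter fun i => i ∈ J j).card ≤ ∑ j ∈ S, k := by
          refine sum_le_sum fun j _ => ?_
          refine (card_le_card ?_).trans (hJ j)
          intro i hi
          exact (mem_filter.1 hi).2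
        have h3 : ∑ j ∈ S, k < ∑ i ∈ S, (S.filter fun j => i ∈ J j).card :=
          sum_lt_sum_of_nonempty hne fun i hi => hcon i hi
        omega
      set S' := (S.erase i \ J i) \ (S.filter fun j => i ∈ J j) with hS'
      have hsub : S' ⊆ S := sdiff_subset.trans (sdiff_subset.trans (erase_subset _ _))
      have hi' : i ∉ S' := by
        intro h
        rw [hS', mem_sdiff, mem_sdiff] at h
        exact (mem_erase.1 h.1.1).1 rfl
      have hss : S' ⊂ S := ⟨hsub, fun h => hi' (h hi)⟩
      obtain ⟨I, hI, hc, hind⟩ := ih S' hss
      refine ⟨insert i I, insert_subset hi (hI.trans hsub), ?_, ?_⟩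
      · have hiI : i ∉ I := fun h => hi' (hI h)
        rw [card_insert_of_notMem hiI]
        have h1 : (S.erase i).card = S.card - 1 := card_erase_of_mem hi
        have h2 : (S.erase i).card - (J i).card ≤ (S.erase i \ J i).card := le_card_sdiff _ _
        have h3 : (S.erase i \ J i).card - (S.filter fun j => i ∈ J j).card ≤ S'.card :=
          le_card_sdiff _ _
        have h4 := hJ i
        have h5 : (2 * k + 1) * (I.card + 1) = (2 * k + 1) * I.card + (2 * k + 1) := by ring
        rw [h5]
        omega
      · intro a ha b hb hab
        rw [mem_insert] at ha hb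
        rcases ha with rfl | ha
        · rcases hb with rfl | hb
          · exact absurd rfl hab
          · have := hI hb
            rw [hS', mem_sdiff, mem_sdiff] at this
            exact this.1.2
        · rcases hb with rfl | hb
          · have := hI ha
            rw [hS', mem_sdiff, mem_filter] at this
            intro hmem
            exact this.2 ⟨hsub (hI ha), hmem⟩
          · exact hind a ha b hb hab

section count

variable {V X : Type*} [Fintype V] [DecidableEq V] [Fintype X] [DecidableEq X]

/-- resampling one coordinate -/
lemma sum_update (f : (V → X) → ℝ) (i : V) :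
    ∑ ε : V → X, ∑ x : X, f (Function.update ε i x) = Fintype.card X * ∑ ε : V → X, f ε := by
  let e : (V → X) × X ≃ (V → X) × X :=
    { toFun := fun p => (Function.update p.1 i p.2, p.1 i)
      invFun := fun p => (Function.update p.1 i p.2, p.1 i)
      left_inv := by
        rintro ⟨ε, x⟩
        simp
      right_inv := by
        rintro ⟨ε, x⟩
        simp }
  have h1 : ∑ p : (V → X) × X, f (Function.update p.1 i p.2) = ∑ p : (V → X) × X, f p.1 := by
    refine Fintype.sum_equiv e _ _ fun p => rfl
  rw [Fintype.sum_prod_type, Fintype.sum_prod_type] at h1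
  rw [h1]
  simp only [Finset.sum_const, Finset.card_univ, nsmul_eq_mul]
  rw [Finset.mul_sum]

/-- **Product counting** for events attached to an independent set. -/
theorem count_indep [Nonempty X] (I : Finset V) (A : V → (V → X) → Prop)
    [∀ i, DecidablePred (A i)] {q : ℝ} (hq : 0 ≤ q)
    (hdep : ∀ i ∈ I, ∀ j ∈ I, i ≠ j → ∀ ε x, A j (Function.update ε i x) ↔ A j ε)
    (hcount : ∀ i ∈ I, ∀ ε, ((univ.filter fun x => A i (Function.update ε i x)).card : ℝ) ≤
      q * Fintype.card X) :
    ((univ.filter fun ε : V → X => ∀ i ∈ I, A i ε).card : ℝ) ≤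
      q ^ I.card * Fintype.card (V → X) := by
  induction I using Finset.induction_on with
  | empty => simp
  | insert i I hi ih =>
    have ih' := ih (fun a ha b hb => hdep a (mem_insert_of_mem ha) b (mem_insert_of_mem hb))
      (fun a ha => hcount a (mem_insert_of_mem ha))
    have hX : (0 : ℝ) < Fintype.card X := Nat.cast_pos.2 Fintype.card_pos
    rw [card_insert_of_notMem hi]
    have key : (Fintype.card X : ℝ) *
        ((univ.filter fun ε : V → X => ∀ j ∈ insert i I, A j ε).card : ℝ) ≤
        Fintype.card X * (q * ((univ.filter fun ε : V → X => ∀ j ∈ I, A j ε).card : ℝ)) := by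
      have e1 : ((univ.filter fun ε : V → X => ∀ j ∈ insert i I, A j ε).card : ℝ) =
          ∑ ε : V → X, if ∀ j ∈ insert i I, A j ε then (1 : ℝ) else 0 := by
        rw [Finset.sum_ite, Finset.sum_const_zero, add_zero, Finset.sum_const, nsmul_eq_mul, mul_one]
      have e2 : ((univ.filter fun ε : V → X => ∀ j ∈ I, A j ε).card : ℝ) =
          ∑ ε : V → X, if ∀ j ∈ I, A j ε then (1 : ℝ) else 0 := by
        rw [Finset.sum_ite, Finset.sum_const_zero, add_zero, Finset.sum_const, nsmul_eq_mul, mul_one]
      rw [e1, ← sum_update _ i, e2, Finset.mul_sum, Finset.mul_sum]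
      refine Finset.sum_le_sum fun ε _ => ?_
      by_cases hε : ∀ j ∈ I, A j ε
      · rw [if_pos hε]
        have h1 : ∑ x : X, (if ∀ j ∈ insert i I, A j (Function.update ε i x) then (1 : ℝ) else 0) ≤
            ((univ.filter fun x => A i (Function.update ε i x)).card : ℝ) := by
          rw [card_filter]
          push_cast
          refine Finset.sum_le_sum fun x _ => ?_
          by_cases h : ∀ j ∈ insert i I, A j (Function.update ε i x)
          · rw [if_pos h, if_pos (h i (mem_insert_self _ _))]
          · rw [if_neg h]; positivity
        have h2 := hcount i (mem_insert_self _ _) ε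
        calc _ ≤ _ := h1
          _ ≤ _ := h2
          _ = _ := by ring
      · rw [if_neg hε, mul_zero, mul_zero]
        refine le_of_eq (Finset.sum_eq_zero fun x _ => ?_)
        rw [if_neg]
        intro h
        apply hε
        intro j hj
        have hij : i ≠ j := fun h => hi (h ▸ hj)
        exact (hdep i (mem_insert_self _ _) j (mem_insert_of_mem hj) hij ε x).1
          (h j (mem_insert_of_mem hj))
    have key2 := le_of_mul_le_mul_left key hX
    calc _ ≤ _ := key2
      _ ≤ q * (q ^ I.card * Fintype.card (V → X)) := mul_le_mul_of_nonneg_left ih' hq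
      _ = _ := by rw [pow_succ]; ring

end count

end SPB65
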