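import Pool.Agent.Lib_helper65.SPB.FewOps1
import Pool.Agent.Lib_helper65.SPB.FewOps2

/-! Few operators theorem, part 3: the counting theorem. -/

namespace SPB65

open Finset

section main

variable {κ P : Type*} [Fintype κ] [DecidableEq κ] [Fintype P] [DecidableEq P] {m k : ℕ}

/-- `ε` is a bad sample: some operator `T` maps every special vector `g (ε i)` into
`C (absconv {U p (g (ε j))} + ρ B)` but is far from `C absconv {U p}` in Hilbert-Schmidt norm. -/
def BadSample (U : P → EuclideanSpace ℝ κ →L[ℝ] EuclideanSpace ℝ κ) (C ρ : ℝ)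
    (ε : Fin m → κ → Bool) : Prop :=
  ∃ T : EuclideanSpace ℝ κ →L[ℝ] EuclideanSpace ℝ κ, ‖T‖ ≤ 4 * C / ρ ∧
    (∀ i, ∃ lam : Fin m × P → ℝ, ∑ a, |lam a| ≤ C ∧
      ‖T (gv (ε i)) - ∑ a, lam a • U a.2 (gv (ε a.1))‖ ≤ C * ρ) ∧
    ∀ c : P → ℝ, ∑ p, |c p| ≤ C → (7 * C * ρ) ^ 2 * Fintype.card κ < hs2 (T - ∑ p, c p • U p)

/-- the diagonal part of a configuration -/
noncomputable def Sop (U : P → EuclideanSpace ℝ κ →L[ℝ] EuclideanSpace ℝ κ) (C : ℝ)
    (cfg : Fin m → Fin k → (Fin m × P) × Bool) (i : Fin m) :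
    EuclideanSpace ℝ κ →L[ℝ] EuclideanSpace ℝ κ :=
  ∑ l, if (cfg i l).1.1 = i then (C / k * sg (cfg i l).2) • U (cfg i l).1.2 else 0

/-- the off-diagonal part of a configuration -/
noncomputable def Zv (U : P → EuclideanSpace ℝ κ →L[ℝ] EuclideanSpace ℝ κ) (C : ℝ)
    (cfg : Fin m → Fin k → (Fin m × P) × Bool) (i : Fin m) (ε : Fin m → κ → Bool) :
    EuclideanSpace ℝ κ :=
  ∑ l, if (cfg i l).1.1 = i then 0 else
    (C / k * sg (cfg i l).2) • U (cfg i l).1.2 (gv (ε (cfg i l).1.1))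

omit [DecidableEq P] [DecidableEq κ] in
lemma Sop_add_Zv (U : P → EuclideanSpace ℝ κ →L[ℝ] EuclideanSpace ℝ κ) (C : ℝ)
    (cfg : Fin m → Fin k → (Fin m × P) × Bool) (i : Fin m) (ε : Fin m → κ → Bool) :
    Sop U C cfg i (gv (ε i)) + Zv U C cfg i ε =
      ∑ l, (C / k * sg (cfg i l).2) • U (cfg i l).1.2 (gv (ε (cfg i l).1.1)) := by
  unfold Sop Zv
  rw [_root_.sum_apply, ← Finset.sum_add_distrib]
  refine Finset.sum_congr rfl fun l _ => ?_
  by_cases h : (cfg i l).1.1 = i
  · rw [if_pos h, if_pos h, add_zero, h]; rfl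
  · rw [if_neg h, if_neg h]; simp

omit [DecidableEq κ] in
lemma Sop_eq (U : P → EuclideanSpace ℝ κ →L[ℝ] EuclideanSpace ℝ κ) {C : ℝ} (hC : 0 ≤ C)
    (cfg : Fin m → Fin k → (Fin m × P) × Bool) (i : Fin m) :
    ∃ c : P → ℝ, ∑ p, |c p| ≤ C ∧ Sop U C cfg i = ∑ p, c p • U p := by
  refine ⟨fun p => ∑ l, if (cfg i l).1.1 = i ∧ (cfg i l).1.2 = p then
    C / k * sg (cfg i l).2 else 0, ?_, ?_⟩
  · calc _ ≤ ∑ p, ∑ l, |if (cfg i l).1.1 = i ∧ (cfg i l).1.2 = p then
          C / k * sg (cfg i l).2 else 0| :=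
          Finset.sum_le_sum fun p _ => Finset.abs_sum_le_sum_abs _ _
      _ = ∑ l, ∑ p, |if (cfg i l).1.1 = i ∧ (cfg i l).1.2 = p then
          C / k * sg (cfg i l).2 else 0| := Finset.sum_comm
      _ ≤ ∑ l : Fin k, C / k := by
          refine Finset.sum_le_sum fun l _ => ?_
          rw [Finset.sum_eq_single (cfg i l).1.2]
          · have h1 : |sg (cfg i l).2| = 1 := by cases (cfg i l).2 <;> simp [sg]
            have h2 : 0 ≤ C / k := by positivity
            split_ifs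
            · rw [abs_mul, h1, mul_one, abs_of_nonneg h2]
            · rw [abs_zero]; exact h2
          · intro p _ hp
            rw [if_neg (fun h => hp h.2.symm), abs_zero]
          · simp
      _ ≤ C := by
          rw [Finset.sum_const, Finset.card_univ, Fintype.card_fin, nsmul_eq_mul]
          rcases Nat.eq_zero_or_pos k with rfl | hk
          · simpa using hC
          · have : (0 : ℝ) < k := Nat.cast_pos.2 hk
            rw [mul_div_cancel₀ _ this.ne']
  · unfold Sop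
    have hsm : ∀ p, (∑ l, if (cfg i l).1.1 = i ∧ (cfg i l).1.2 = p then
        C / k * sg (cfg i l).2 else 0) • U p = ∑ l, (if (cfg i l).1.1 = i ∧ (cfg i l).1.2 = p then
        C / k * sg (cfg i l).2 else 0) • U p := fun p =>
      Finset.sum_smul (R := ℝ) (M := EuclideanSpace ℝ κ →L[ℝ] EuclideanSpace ℝ κ)
    rw [Finset.sum_congr rfl fun p _ => hsm p, Finset.sum_comm]
    refine Finset.sum_congr rfl fun l _ => ?_
    by_cases h : (cfg i l).1.1 = i
    · rw [if_pos h, Finset.sum_eq_single (cfg i l).1.2]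
      · rw [if_pos ⟨h, rfl⟩]
      · intro p _ hp
        rw [if_neg (fun h => hp h.2.symm)]
        exact zero_smul ℝ (U p)
      · simp
    · rw [if_neg h]
      symm
      refine Finset.sum_eq_zero fun p _ => ?_
      rw [if_neg (fun h' => h h'.1)]
      exact zero_smul ℝ (U p)

omit [DecidableEq κ] in
lemma norm_Sop_le (U : P → EuclideanSpace ℝ κ →L[ℝ] EuclideanSpace ℝ κ) (hU : ∀ p, ‖U p‖ ≤ 2)
    {C : ℝ} (hC : 0 ≤ C) (cfg : Fin m → Fin k → (Fin m × P) × Bool) (i : Fin m) :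
    ‖Sop U C cfg i‖ ≤ 2 * C := by
  obtain ⟨c, hc, he⟩ := Sop_eq U hC cfg i
  rw [he]
  calc _ ≤ ∑ p, ‖c p • U p‖ := norm_sum_le _ _
    _ ≤ ∑ p, |c p| * 2 := Finset.sum_le_sum fun p _ => by
        rw [norm_smul, Real.norm_eq_abs]
        exact mul_le_mul_of_nonneg_left (hU p) (abs_nonneg _)
    _ ≤ 2 * C := by rw [← Finset.sum_mul]; linarith

/-- the event attached to a net point and a configuration -/
def Ev (U : P → EuclideanSpace ℝ κ →L[ℝ] EuclideanSpace ℝ κ) (C : ℝ)
    (T : EuclideanSpace ℝ κ →L[ℝ] EuclideanSpace ℝ κ)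
    (cfg : Fin m → Fin k → (Fin m × P) × Bool) (i : Fin m) (ε : Fin m → κ → Bool) : Prop :=
  ‖(T - Sop U C cfg i) (gv (ε i)) - Zv U C cfg i ε‖ ^ 2 ≤
    hs2 (T - Sop U C cfg i) / (4 * Fintype.card κ)

/-- validity of a net point and a configuration -/
def Valid (U : P → EuclideanSpace ℝ κ →L[ℝ] EuclideanSpace ℝ κ) (C ρ : ℝ)
    (T : EuclideanSpace ℝ κ →L[ℝ] EuclideanSpace ℝ κ)
    (cfg : Fin m → Fin k → (Fin m × P) × Bool) : Prop :=
  ∀ i, (69 / 10 * C * ρ) ^ 2 * Fintype.card κ ≤ hs2 (T - Sop U C cfg i) ∧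
    ‖T - Sop U C cfg i‖ ≤ 7 * C / ρ

open Classical in
lemma count_Ev [Nonempty κ] (U : P → EuclideanSpace ℝ κ →L[ℝ] EuclideanSpace ℝ κ) {C ρ : ℝ}
    (hC : 1 ≤ C) (hρ : 0 < ρ) (T : EuclideanSpace ℝ κ →L[ℝ] EuclideanSpace ℝ κ)
    (cfg : Fin m → Fin k → (Fin m × P) × Bool) (hv : Valid U C ρ T cfg) :
    ((univ.filter fun ε : Fin m → κ → Bool => ∀ i, Ev U C T cfg i ε).card : ℝ) ≤
      Real.exp (-(ρ ^ 4 * Fintype.card κ / 17 * (m / (2 * k + 1)))) *
        (2 ^ Fintype.card κ) ^ m := by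
  have hN : (0 : ℝ) < Fintype.card κ := Nat.cast_pos.2 Fintype.card_pos
  have hC0 : 0 < C := by linarith
  obtain ⟨I, -, hIc, hI⟩ := exists_indep (k := k) (fun i : Fin m => univ.image fun l => (cfg i l).1.1)
    (fun i => card_image_le.trans (by rw [card_univ, Fintype.card_fin])) univ
  rw [card_univ, Fintype.card_fin] at hIc
  set q : ℝ := Real.exp (-(ρ ^ 4 * Fintype.card κ / 17)) with hq
  have hcnt := count_indep (V := Fin m) (X := κ → Bool) I (fun i ε => Ev U C T cfg i ε)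
    (q := q) (Real.exp_pos _).le (by
      intro i hi j hj hij ε x
      have h1 : ∀ l, (cfg j l).1.1 ≠ i := by
        intro l hl
        exact hI j hj i hi hij.symm (mem_image.2 ⟨l, mem_univ _, hl⟩)
      have h2 : Function.update ε i x j = ε j := Function.update_of_ne hij.symm _ _
      have h3 : Zv U C cfg j (Function.update ε i x) = Zv U C cfg j ε := by
        unfold Zv
        refine Finset.sum_congr rfl fun l _ => ?_
        rw [Function.update_of_ne (h1 l)]
      simp only [Ev, h2, h3]) (by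
      intro i _ ε
      have h3 : ∀ x, Zv U C cfg i (Function.update ε i x) = Zv U C cfg i ε := by
        intro x
        unfold Zv
        refine Finset.sum_congr rfl fun l _ => ?_
        by_cases h : (cfg i l).1.1 = i
        · rw [if_pos h, if_pos h]
        · rw [if_neg h, if_neg h, Function.update_of_ne h]
      have h4 := op_small_ball (T - Sop U C cfg i) (Zv U C cfg i ε) (B := 7 * C / ρ)
        (by positivity) (hv i).2
      have h5 : Real.exp (-(hs2 (T - Sop U C cfg i) / (16 * (7 * C / ρ) ^ 2))) ≤ q := by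
        rw [hq]
        refine Real.exp_le_exp.2 (neg_le_neg ?_)
        rw [le_div_iff₀ (by positivity)]
        refine le_trans ?_ (hv i).1
        have e1 : ρ ^ 4 * (Fintype.card κ : ℝ) / 17 * (16 * (7 * C / ρ) ^ 2) =
            (784 / 17) * (C ^ 2 * ρ ^ 2 * Fintype.card κ) := by
          field_simp
          ring
        have e2 : (69 / 10 * C * ρ) ^ 2 * (Fintype.card κ : ℝ) =
            (4761 / 100) * (C ^ 2 * ρ ^ 2 * Fintype.card κ) := by ring
        rw [e1, e2]
        have : 0 ≤ C ^ 2 * ρ ^ 2 * (Fintype.card κ : ℝ) := by positivity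
        nlinarith
      have h6 : (Fintype.card (κ → Bool) : ℝ) = 2 ^ Fintype.card κ := by
        rw [Fintype.card_fun, Fintype.card_bool]; push_cast; rfl
      rw [h6, mul_comm q]
      refine le_trans (le_of_eq ?_) (h4.trans (mul_le_mul_of_nonneg_left h5 (by positivity)))
      congr 2
      ext x
      simp only [mem_filter, mem_univ, true_and, Ev, Function.update_self, h3])
  have h6 : (Fintype.card (Fin m → κ → Bool) : ℝ) = (2 ^ Fintype.card κ) ^ m := by
    rw [Fintype.card_fun, Fintype.card_fun, Fintype.card_bool, Fintype.card_fin]; push_cast; rfl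
  rw [h6] at hcnt
  have h7 : q ^ I.card ≤ Real.exp (-(ρ ^ 4 * Fintype.card κ / 17 * (m / (2 * k + 1)))) := by
    rw [hq, ← Real.exp_nat_mul]
    refine Real.exp_le_exp.2 ?_
    rw [mul_neg]
    refine neg_le_neg ?_
    rw [mul_comm (I.card : ℝ)]
    refine mul_le_mul_of_nonneg_left ?_ (by positivity)
    rw [div_le_iff₀ (by positivity)]
    have : (m : ℝ) ≤ ((2 * k + 1) * I.card : ℕ) := Nat.cast_le.2 hIc
    push_cast at this
    linarith
  refine le_trans ?_ (hcnt.trans (mul_le_mul_of_nonneg_right h7 (by positivity)))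
  refine Nat.cast_le.2 (card_le_card ?_)
  intro ε hε
  simp only [mem_filter, mem_univ, true_and] at hε ⊢
  exact fun i _ => hε i

open Classical in
/-- **The few operators theorem, counting form.** -/
theorem few_operators_count [Nonempty κ] [Nonempty P]
    (U : P → EuclideanSpace ℝ κ →L[ℝ] EuclideanSpace ℝ κ) (hU : ∀ p, ‖U p‖ ≤ 2) {C ρ : ℝ}
    (hC : 1 ≤ C) (hρ : 0 < ρ) (hρ1 : ρ ≤ 1) {m k L : ℕ} (hm : 0 < m) (hk : 400 / ρ ^ 2 ≤ k)
    (hL : 80 * Fintype.card κ / ρ ^ 2 + 2 ≤ L) :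
    ((univ.filter fun ε : Fin m → κ → Bool => BadSample U C ρ ε).card : ℝ) ≤
      (L : ℝ) ^ (Fintype.card κ ^ 2) * ((m * Fintype.card P * 2 : ℝ) ^ k) ^ m *
        (Real.exp (-(ρ ^ 4 * Fintype.card κ / 17 * (m / (2 * k + 1)))) *
        (2 ^ Fintype.card κ) ^ m) := by
  have hN1 : 1 ≤ Fintype.card κ := Fintype.card_pos
  have hN : (1 : ℝ) ≤ Fintype.card κ := by exact_mod_cast hN1
  set N : ℝ := (Fintype.card κ : ℝ) with hNdef
  have hC0 : 0 < C := by linarith
  have hk0R : (0 : ℝ) < k := lt_of_lt_of_le (by positivity) hk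
  have hk0 : 0 < k := by exact_mod_cast hk0R
  obtain ⟨𝒩, h𝒩c, h𝒩⟩ := exists_net (κ := κ) (B := 4 * C / ρ) (δ := C * ρ / 10) (by positivity) L
    (by
      refine le_trans (le_of_eq ?_) hL
      rw [← hNdef]
      field_simp
      ring)
  have : NeZero m := ⟨hm.ne'⟩
  -- the union bound
  have hsub : (univ.filter fun ε : Fin m → κ → Bool => BadSample U C ρ ε) ⊆
      (𝒩 ×ˢ (univ : Finset (Fin m → Fin k → (Fin m × P) × Bool))).biUnion fun x =>
        if Valid U C ρ x.1 x.2 then univ.filter fun ε => ∀ i, Ev U C x.1 x.2 i ε else ∅ := by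
    intro ε hε
    obtain ⟨T, hT, hTi, hTc⟩ := (mem_filter.1 hε).2
    obtain ⟨T', hT', hTT'⟩ := h𝒩 T hT
    have hcfg : ∀ i, ∃ j : Fin k → (Fin m × P) × Bool,
        ‖∑ l, (C / k * sg (j l).2) • U (j l).1.2 (gv (ε (j l).1.1)) - T (gv (ε i))‖ ≤
          C * ρ + C * ρ / 10 := by
      intro i
      obtain ⟨lam, hlam, hlam2⟩ := hTi i
      obtain ⟨j, hj⟩ := maurey (fun a : Fin m × P => U a.2 (gv (ε a.1))) (D := 2) (fun a => by
        refine ((U a.2).le_opNorm _).trans ?_
        rw [norm_gv, mul_one]; exact hU _) hC0 hlam hk0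
      refine ⟨j, ?_⟩
      have h1 : C * 2 / Real.sqrt k ≤ C * ρ / 10 := by
        have h2 : 20 / ρ ≤ Real.sqrt k := by
          rw [Real.le_sqrt (by positivity) hk0R.le]
          refine le_trans (le_of_eq ?_) hk
          rw [div_pow]; norm_num
        rw [div_le_iff₀ (Real.sqrt_pos.2 hk0R)]
        calc C * 2 = C * ρ / 10 * (20 / ρ) := by field_simp; ring
          _ ≤ C * ρ / 10 * Real.sqrt k := by gcongr
      have h3 : ∑ l, (C / k * sg (j l).2) • U (j l).1.2 (gv (ε (j l).1.1)) - T (gv (ε i)) =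
          (∑ l, (C / k * sg (j l).2) • U (j l).1.2 (gv (ε (j l).1.1)) -
            ∑ a, lam a • U a.2 (gv (ε a.1))) -
          (T (gv (ε i)) - ∑ a, lam a • U a.2 (gv (ε a.1))) := by abel
      rw [h3]
      refine (norm_sub_le _ _).trans ?_
      linarith
    choose cfg hcfg using hcfg
    have hdist : ∀ i, Real.sqrt (hs2 (T' - Sop U C cfg i)) ≥ 69 / 10 * C * ρ * Real.sqrt N := by
      intro i
      obtain ⟨c, hc, he⟩ := Sop_eq U hC0.le cfg i
      have h1 := hTc c hc
      rw [← he] at h1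
      have h2 : 7 * C * ρ * Real.sqrt N ≤ Real.sqrt (hs2 (T - Sop U C cfg i)) := by
        refine Real.le_sqrt_of_sq_le ?_
        rw [mul_pow, Real.sq_sqrt (by linarith)]
        exact h1.le
      have h3 : T - Sop U C cfg i = (T' - Sop U C cfg i) + (T - T') := by abel
      have h4 := sqrt_hs2_add (T' - Sop U C cfg i) (T - T')
      rw [← h3] at h4
      have h5 : Real.sqrt (hs2 (T - T')) ≤ C * ρ / 10 := by
        rw [Real.sqrt_le_left (by positivity)]; exact hTT'
      have h6 : 1 ≤ Real.sqrt N := Real.one_le_sqrt.2 hN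
      have h7 : C * ρ / 10 ≤ C * ρ / 10 * Real.sqrt N := by
        have : 0 ≤ C * ρ / 10 := by positivity
        nlinarith
      linarith
    have hnorm : ∀ i, ‖T' - Sop U C cfg i‖ ≤ 7 * C / ρ := by
      intro i
      have h1 : T' - Sop U C cfg i = T - (T - T') - Sop U C cfg i := by abel
      rw [h1]
      have h2 := norm_le_sqrt_hs2 (T - T')
      have h5 : Real.sqrt (hs2 (T - T')) ≤ C * ρ / 10 := by
        rw [Real.sqrt_le_left (by positivity)]; exact hTT'
      have h3 := norm_Sop_le U hU hC0.le cfg i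
      have h4 : ‖T - (T - T') - Sop U C cfg i‖ ≤ ‖T‖ + ‖T - T'‖ + ‖Sop U C cfg i‖ :=
        (norm_sub_le _ _).trans (add_le_add_left (norm_sub_le _ _) _)
      have h6 : C * ρ / 10 ≤ C / ρ := by
        rw [le_div_iff₀ hρ]; nlinarith [mul_pos hC0 hρ]
      have h7 : 2 * C ≤ 2 * C / ρ := by
        rw [le_div_iff₀ hρ]; nlinarith
      have h8 : 4 * C / ρ + C / ρ + 2 * C / ρ = 7 * C / ρ := by ring
      linarith
    have hvalid : Valid U C ρ T' cfg := by
      intro i
      refine ⟨?_, hnorm i⟩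
      have h1 := hdist i
      have h2 : (69 / 10 * C * ρ * Real.sqrt N) ^ 2 ≤ Real.sqrt (hs2 (T' - Sop U C cfg i)) ^ 2 :=
        pow_le_pow_left₀ (by positivity) h1 2
      rw [Real.sq_sqrt (hs2_nonneg _), mul_pow, Real.sq_sqrt (by linarith)] at h2
      exact h2
    rw [mem_biUnion]
    refine ⟨(T', cfg), mem_product.2 ⟨hT', mem_univ _⟩, ?_⟩
    simp only
    rw [if_pos hvalid, mem_filter]
    refine ⟨mem_univ _, fun i => ?_⟩
    have h1 : (T' - Sop U C cfg i) (gv (ε i)) - Zv U C cfg i ε =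
        -(T - T') (gv (ε i)) - (∑ l, (C / k * sg (cfg i l).2) •
          U (cfg i l).1.2 (gv (ε (cfg i l).1.1)) - T (gv (ε i))) := by
      rw [← Sop_add_Zv, sub_apply, sub_apply]
      abel
    have h2 : ‖(T - T') (gv (ε i))‖ ≤ C * ρ / 10 := by
      have h5 : Real.sqrt (hs2 (T - T')) ≤ C * ρ / 10 := by
        rw [Real.sqrt_le_left (by positivity)]; exact hTT'
      refine ((T - T').le_opNorm _).trans ?_
      rw [norm_gv, mul_one]
      exact (norm_le_sqrt_hs2 _).trans h5
    have h3 : ‖(T' - Sop U C cfg i) (gv (ε i)) - Zv U C cfg i ε‖ ≤ 12 / 10 * C * ρ := by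
      rw [h1]
      refine (norm_sub_le _ _).trans ?_
      rw [norm_neg]
      have := hcfg i
      linarith
    have h4 := (hvalid i).1
    unfold Ev
    rw [le_div_iff₀ (by positivity)]
    refine le_trans ?_ h4
    calc ‖(T' - Sop U C cfg i) (gv (ε i)) - Zv U C cfg i ε‖ ^ 2 * (4 * N)
        ≤ (12 / 10 * C * ρ) ^ 2 * (4 * N) := by gcongr
      _ ≤ (69 / 10 * C * ρ) ^ 2 * N := by
          have : 0 ≤ (C * ρ) ^ 2 * N := by positivity
          nlinarith
  have hcard1 : ((univ.filter fun ε : Fin m → κ → Bool => BadSample U C ρ ε).card : ℝ) ≤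
      ∑ x ∈ 𝒩 ×ˢ (univ : Finset (Fin m → Fin k → (Fin m × P) × Bool)),
        ((if Valid U C ρ x.1 x.2 then univ.filter fun ε => ∀ i, Ev U C x.1 x.2 i ε
          else ∅ : Finset (Fin m → κ → Bool)).card : ℝ) := by
    have := (card_le_card hsub).trans card_biUnion_le
    exact_mod_cast this
  refine hcard1.trans ?_
  set Q : ℝ := Real.exp (-(ρ ^ 4 * N / 17 * (m / (2 * k + 1)))) * (2 ^ Fintype.card κ) ^ m with hQ
  have hQ0 : 0 ≤ Q := by positivity
  calc _ ≤ ∑ x ∈ 𝒩 ×ˢ (univ : Finset (Fin m → Fin k → (Fin m × P) × Bool)), Q := by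
        refine Finset.sum_le_sum fun x _ => ?_
        by_cases hv : Valid U C ρ x.1 x.2
        · rw [if_pos hv]
          exact count_Ev U hC hρ x.1 x.2 hv
        · rw [if_neg hv]; simpa using hQ0
    _ = ((𝒩.card : ℝ) * ((m * Fintype.card P * 2 : ℝ) ^ k) ^ m) * Q := by
        rw [Finset.sum_const, card_product, nsmul_eq_mul]
        congr 1
        rw [Finset.card_univ, Fintype.card_fun, Fintype.card_fun, Fintype.card_prod,
          Fintype.card_prod, Fintype.card_bool, Fintype.card_fin, Fintype.card_fin]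
        push_cast
        ring
    _ ≤ _ := by
        refine mul_le_mul_of_nonneg_right (mul_le_mul_of_nonneg_right ?_ (by positivity)) hQ0
        exact_mod_cast h𝒩c

end main

end SPB65
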