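import Mathlib

/-! The abstract four-leaves lemma: chains of almost commuting almost idempotents in the tree
algebra have large variation. -/

namespace SPB65

open Finset

section vr

/-- the variation of `f` on `[l, r]` -/
noncomputable def vr (f : ℕ → ℝ) (l r : ℕ) : ℝ := ∑ x ∈ Ico l r, |f (x + 1) - f x|

lemma vr_nonneg (f : ℕ → ℝ) (l r : ℕ) : 0 ≤ vr f l r := sum_nonneg fun _ _ => abs_nonneg _

lemma vr_add (f : ℕ → ℝ) {l m r : ℕ} (h : l ≤ m) (h' : m ≤ r) :
    vr f l r = vr f l m + vr f m r := (sum_Ico_consecutive _ h h').symm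

lemma vr_mono (f : ℕ → ℝ) {l l' r r' : ℕ} (h : l' ≤ l) (h' : r ≤ r') : vr f l r ≤ vr f l' r' :=
  sum_le_sum_of_subset_of_nonneg (Ico_subset_Ico h h') fun _ _ _ => abs_nonneg _

lemma abs_sub_le_vr (f : ℕ → ℝ) {l r : ℕ} (h : l ≤ r) : |f r - f l| ≤ vr f l r := by
  have : f r - f l = ∑ x ∈ Ico l r, (f (x + 1) - f x) := (sum_Ico_sub f h).symm
  rw [this]
  exact abs_sum_le_sum_abs _ _

lemma abs_sub_le_vr' (f : ℕ → ℝ) {l r p q : ℕ} (hp : l ≤ p) (hp' : p ≤ r) (hq : l ≤ q)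
    (hq' : q ≤ r) : |f p - f q| ≤ vr f l r := by
  rcases le_total p q with h | h
  · rw [abs_sub_comm]
    exact (abs_sub_le_vr f h).trans (vr_mono f hp hq')
  · exact (abs_sub_le_vr f h).trans (vr_mono f hq hp')

end vr

section four

variable (F : ℕ → ℕ → ℝ) (S : Set ℕ) (η : ℝ)

/-- At the pair with event positions `a ≤ b ≤ c`, the operators `y_n` (`n ∈ S`) almost satisfy
`y_n y_m = y_n = y_m y_n` for `n ≤ m`; `y_n` acts there by `[[F n a, F n b - F n c], [0, F n c]]`. -/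
def Good (a b c : ℕ) : Prop :=
  ∀ n ∈ S, ∀ m ∈ S, n ≤ m →
    |F n a * F m a - F n a| ≤ η ∧
    |F n c * F m c - F n c| ≤ η ∧
    |F n a * (F m b - F m c) + (F n b - F n c) * F m c - (F n b - F n c)| ≤ η ∧
    |F m a * (F n b - F n c) + (F m b - F m c) * F n c - (F n b - F n c)| ≤ η

/-- the time `n` is half-way in `[lo, hi]` -/
def Half (n lo hi : ℕ) : Prop :=
  (∃ a b c, lo ≤ a ∧ a ≤ b ∧ b ≤ c ∧ c ≤ hi ∧ Good F S η a b c ∧ F n c ≤ 1 / 2) ∧
  (∃ a b c, lo ≤ a ∧ a ≤ b ∧ b ≤ c ∧ c ≤ hi ∧ Good F S η a b c ∧ 1 / 2 ≤ F n c)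

/-- the binary tree of good pairs of depth `d` in `[lo, hi]` -/
def GT : ℕ → ℕ → ℕ → Prop
  | 0, lo, hi => ∃ n ∈ S, Half F S η n lo hi
  | d + 1, lo, hi => ∃ a b c, lo ≤ a ∧ a ≤ b ∧ b ≤ c ∧ c ≤ hi ∧ Good F S η a b c ∧
      GT d a b ∧ GT d b c

variable {F S η}

lemma Half.mono {n lo hi lo' hi' : ℕ} (h : Half F S η n lo hi) (h1 : lo' ≤ lo) (h2 : hi ≤ hi') :
    Half F S η n lo' hi' := by
  obtain ⟨⟨a, b, c, h3, h4, h5, h6, h7, h8⟩, ⟨a', b', c', h3', h4', h5', h6', h7', h8'⟩⟩ := h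
  exact ⟨⟨a, b, c, h1.trans h3, h4, h5, h6.trans h2, h7, h8⟩,
    ⟨a', b', c', h1.trans h3', h4', h5', h6'.trans h2, h7', h8'⟩⟩

lemma near01 {x : ℝ} {η : ℝ} (h : |x * x - x| ≤ η) : |x - 0| ≤ 2 * η ∨ |x - 1| ≤ 2 * η := by
  have h1 : x * x - x = x * (x - 1) := by ring
  rw [h1, abs_mul] at h
  rcases le_total (1 / 2) |x| with h2 | h2
  · right
    nlinarith [abs_nonneg (x - 1)]
  · left
    have h3 : 1 / 2 ≤ |x - 1| := by
      have := abs_sub_abs_le_abs_sub 1 x
      rw [abs_one, abs_sub_comm] at this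
      linarith
    rw [sub_zero]
    nlinarith [abs_nonneg x]

lemma near0 {x : ℝ} {η : ℝ} (hη : η ≤ 1 / 100) (h : |x * x - x| ≤ η) (hx : x ≤ 1 / 2) :
    |x| ≤ 2 * η := by
  rcases near01 h with h1 | h1
  · rwa [sub_zero] at h1
  · exfalso
    have := (abs_le.1 h1).1
    linarith

lemma near1 {x : ℝ} {η : ℝ} (hη : η ≤ 1 / 100) (h : |x * x - x| ≤ η) (hx : 1 / 2 ≤ x) :
    |x - 1| ≤ 2 * η := by
  rcases near01 h with h1 | h1
  · exfalso
    rw [sub_zero] at h1
    have := (abs_le.1 h1).2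
    linarith
  · exact h1

/-- the class of the time `n` relative to the interval `[l, r] ⊆ [lo, hi]`: outside `[l, r]` the
function is almost constant on each side, with the values `(0,0)`, `(1,1)` or mixed. -/
def Cl (F : ℕ → ℕ → ℝ) (n lo l r hi k : ℕ) : Prop :=
  ∃ s t : ℝ, ((k = 0 ∧ s = 0 ∧ t = 0) ∨ (k = 1 ∧ s = 1 ∧ t = 1) ∨
      (k = 2 ∧ ((s = 0 ∧ t = 1) ∨ (s = 1 ∧ t = 0)))) ∧
    (∀ p, lo ≤ p → p ≤ l → |F n p - s| ≤ 12 / 100) ∧
    (∀ p, r ≤ p → p ≤ hi → |F n p - t| ≤ 12 / 100)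

lemma exists_class (hη : η ≤ 1 / 100) {n lo l r hi a b c : ℕ} (hn : n ∈ S)
    (hg : Good F S η a b c) (h1 : lo ≤ a) (h2 : a ≤ l) (h4 : r ≤ c) (h5 : c ≤ hi)
    (hv : vr (F n) lo l + vr (F n) r hi < 1 / 10) : ∃ k, k ≤ 2 ∧ Cl F n lo l r hi k := by
  obtain ⟨ga, gc, -, -⟩ := hg n hn n hn le_rfl
  have v1 := vr_nonneg (F n) lo l
  have v2 := vr_nonneg (F n) r hi
  have L : ∀ s : ℝ, |F n a - s| ≤ 2 * η → ∀ p, lo ≤ p → p ≤ l → |F n p - s| ≤ 12 / 100 := by
    intro s hs p hp hp'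
    have e1 := abs_sub_le_vr' (F n) hp hp' h1 h2
    have e2 : |F n p - s| ≤ |F n p - F n a| + |F n a - s| := abs_sub_le _ _ _
    linarith
  have R : ∀ s : ℝ, |F n c - s| ≤ 2 * η → ∀ p, r ≤ p → p ≤ hi → |F n p - s| ≤ 12 / 100 := by
    intro s hs p hp hp'
    have e1 := abs_sub_le_vr' (F n) hp hp' h4 h5
    have e2 : |F n p - s| ≤ |F n p - F n c| + |F n c - s| := abs_sub_le _ _ _
    linarith
  rcases near01 ga with ha | ha <;> rcases near01 gc with hc | hc
  · exact ⟨0, by norm_num, 0, 0, by simp, L 0 ha, R 0 hc⟩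
  · exact ⟨2, by norm_num, 0, 1, by simp, L 0 ha, R 1 hc⟩
  · exact ⟨2, by norm_num, 1, 0, by simp, L 1 ha, R 0 hc⟩
  · exact ⟨1, by norm_num, 1, 1, by simp, L 1 ha, R 1 hc⟩

lemma mixed_contra {η al be ga al' be' ga' s t s' t' : ℝ} (hη : η ≤ 1 / 100)
    (h1 : |al - s| ≤ 12 / 100) (h2 : |be| ≤ 24 / 100) (h3 : |ga - t| ≤ 12 / 100)
    (h1' : |al' - s'| ≤ 12 / 100) (h2' : |be' - (s' - t')| ≤ 24 / 100)
    (h3' : |ga' - t'| ≤ 12 / 100)
    (hst : (s = 0 ∧ t = 1) ∨ (s = 1 ∧ t = 0)) (hst' : (s' = 0 ∧ t' = 1) ∨ (s' = 1 ∧ t' = 0))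
    (c : |al * be' + be * ga' - (al' * be + be' * ga)| ≤ 2 * η) : False := by
  have e1 : al * be' + be * ga' - (al' * be + be' * ga) =
      be' * (al - ga) - be * (al' - ga') := by ring
  rw [e1] at c
  have e2 : |be * (al' - ga')| ≤ 24 / 100 * (124 / 100) := by
    rw [abs_mul]
    refine mul_le_mul h2 ?_ (abs_nonneg _) (by norm_num)
    rw [abs_le] at h1' h3' ⊢
    rcases hst' with ⟨h, h'⟩ | ⟨h, h'⟩ <;> subst h <;> subst h' <;> constructor <;> linarith
  have e3 : 76 / 100 * (76 / 100) ≤ |be' * (al - ga)| := by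
    rw [abs_mul]
    refine mul_le_mul ?_ ?_ (by norm_num) (abs_nonneg _)
    · rw [abs_le] at h2'
      rcases hst' with ⟨h, h'⟩ | ⟨h, h'⟩ <;> subst h <;> subst h'
      · rw [le_abs]; right; linarith
      · rw [le_abs]; left; linarith
    · rw [abs_le] at h1 h3
      rcases hst with ⟨h, h'⟩ | ⟨h, h'⟩ <;> subst h <;> subst h'
      · rw [le_abs]; right; linarith
      · rw [le_abs]; left; linarith
  have e4 : |be' * (al - ga)| - |be * (al' - ga')| ≤ 2 * η :=
    (abs_sub_abs_le_abs_sub _ _).trans c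
  linarith

lemma prod_contra {η x y : ℝ} (hη : η ≤ 1 / 100) (hx : 1 / 2 ≤ x) (hy : |y| ≤ 12 / 100)
    (h : |x * y - x| ≤ η) : False := by
  have h1 : x * y - x = -(x * (1 - y)) := by ring
  rw [h1, abs_neg] at h
  have h2 := (abs_le.1 h).2
  have h3 := (abs_le.1 hy).2
  nlinarith

lemma pair_contra (hη : η ≤ 1 / 100) {A B C lo hi l r l' r' n n' k k' : ℕ}
    (hn : n ∈ S) (hn' : n' ∈ S) (hg : Good F S η A B C)
    (h1 : lo ≤ A) (h2 : A ≤ l) (h4 : r ≤ B) (h5 : B ≤ l')
    (h7 : r' ≤ C) (h8 : C ≤ hi) (hBl : A ≤ B) (hBr : B ≤ C)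
    (hc : Cl F n lo l r hi k) (hc' : Cl F n' lo l' r' hi k') (hW : Half F S η n l r)
    (hW' : Half F S η n' l' r') : k ≠ k' := by
  intro hkk
  subst hkk
  obtain ⟨s, t, hst, hL, hR⟩ := hc
  obtain ⟨s', t', hst', hL', hR'⟩ := hc'
  obtain ⟨⟨a0, b0, c0, w1, w2, w3, w4, w5, w6⟩, ⟨a1, b1, c1, x1, x2, x3, x4, x5, x6⟩⟩ := hW
  obtain ⟨⟨a0', b0', c0', w1', w2', w3', w4', w5', w6'⟩,
    ⟨a1', b1', c1', x1', x2', x3', x4', x5', x6'⟩⟩ := hW'
  rcases hst with ⟨rfl, rfl, rfl⟩ | ⟨rfl, rfl, rfl⟩ | ⟨rfl, hst⟩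
  · -- class (0,0)
    rcases hst' with ⟨_, rfl, rfl⟩ | ⟨h, _, _⟩ | ⟨h, _⟩
    · rcases le_total n n' with hle | hle
      · obtain ⟨-, g, -, -⟩ := x5 n hn n' hn' hle
        refine prod_contra hη x6 ?_ g
        have := hL' c1 (by omega) (by omega)
        rwa [sub_zero] at this
      · obtain ⟨-, g, -, -⟩ := x5' n' hn' n hn hle
        refine prod_contra hη x6' ?_ g
        have := hR c1' (by omega) (by omega)
        rwa [sub_zero] at this
    · omega
    · omega
  · -- class (1,1)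
    rcases hst' with ⟨h, _, _⟩ | ⟨_, rfl, rfl⟩ | ⟨h, _⟩
    · omega
    · rcases le_total n n' with hle | hle
      · obtain ⟨-, g, -, -⟩ := w5' n hn n' hn' hle
        obtain ⟨-, g', -, -⟩ := w5' n' hn' n' hn' le_rfl
        have e0 := near0 hη g' w6'
        have e1 := hR c0' (by omega) (by omega)
        refine prod_contra hη ?_ ?_ g
        · have := (abs_le.1 e1).1; linarith
        · linarith
      · obtain ⟨-, g, -, -⟩ := w5 n' hn' n hn hle
        obtain ⟨-, g', -, -⟩ := w5 n hn n hn le_rfl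
        have e0 := near0 hη g' w6
        have e1 := hL' c0 (by omega) (by omega)
        refine prod_contra hη ?_ ?_ g
        · have := (abs_le.1 e1).1; linarith
        · linarith
    · omega
  · -- mixed
    rcases hst' with ⟨h, _, _⟩ | ⟨h, _, _⟩ | ⟨_, hst'⟩
    · omega
    · omega
    · have a1 := hL A (by omega) (by omega)
      have a2 := hR B (by omega) (by omega)
      have a3 := hR C (by omega) (by omega)
      have b1 := hL' A (by omega) (by omega)
      have b2 := hL' B (by omega) (by omega)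
      have b3 := hR' C (by omega) (by omega)
      have hbe : |F n B - F n C| ≤ 24 / 100 := by
        have e : F n B - F n C = (F n B - t) - (F n C - t) := by ring
        rw [e]
        exact (abs_sub _ _).trans (by linarith)
      have hbe' : |F n' B - F n' C - (s' - t')| ≤ 24 / 100 := by
        have e : F n' B - F n' C - (s' - t') = (F n' B - s') - (F n' C - t') := by ring
        rw [e]
        exact (abs_sub _ _).trans (by linarith)
      have hcomm : |F n A * (F n' B - F n' C) + (F n B - F n C) * F n' C -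
          (F n' A * (F n B - F n C) + (F n' B - F n' C) * F n C)| ≤ 2 * η := by
        rcases le_total n n' with hle | hle
        · obtain ⟨-, -, g1, g2⟩ := hg n hn n' hn' hle
          rw [abs_le] at g1 g2 ⊢
          constructor <;> linarith [g1.1, g1.2, g2.1, g2.2]
        · obtain ⟨-, -, g1, g2⟩ := hg n' hn' n hn hle
          rw [abs_le] at g1 g2 ⊢
          constructor <;> linarith [g1.1, g1.2, g2.1, g2.2]
      exact mixed_contra hη a1 hbe a3 b1 hbe' b3 hst hst' hcomm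

/-- **The four-leaves lemma.** -/
theorem four_leaves (hη : η ≤ 1 / 100) (d : ℕ) : ∀ lo hi, GT F S η d lo hi →
    ∃ n ∈ S, Half F S η n lo hi ∧ ((d / 2 : ℕ) : ℝ) / 10 ≤ vr (F n) lo hi := by
  induction d using Nat.strong_induction_on with
  | _ d ih =>
    intro lo hi hT
    match d, hT, ih with
    | 0, hT, _ =>
      obtain ⟨n, hn, hH⟩ := hT
      exact ⟨n, hn, hH, by simpa using vr_nonneg (F n) lo hi⟩
    | 1, hT, ih =>
      obtain ⟨a, b, c, h1, h2, h3, h4, hg, hl, hr⟩ := hT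
      obtain ⟨n, hn, hH, -⟩ := ih 0 (by norm_num) a b hl
      exact ⟨n, hn, hH.mono h1 (h3.trans h4), by simpa using vr_nonneg (F n) lo hi⟩
    | d + 2, hT, ih =>
      obtain ⟨a, b, c, h1, h2, h3, h4, hg, ⟨a1, b1, c1, l1, l2, l3, l4, lg, lT1, lT2⟩,
        ⟨a2, b2, c2, r1, r2, r3, r4, rg, rT1, rT2⟩⟩ := hT
      obtain ⟨n1, m1, H1, v1⟩ := ih d (by omega) _ _ lT1
      obtain ⟨n2, m2, H2, v2⟩ := ih d (by omega) _ _ lT2
      obtain ⟨n3, m3, H3, v3⟩ := ih d (by omega) _ _ rT1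
      obtain ⟨n4, m4, H4, v4⟩ := ih d (by omega) _ _ rT2
      have hd : (((d + 2) / 2 : ℕ) : ℝ) / 10 = ((d / 2 : ℕ) : ℝ) / 10 + 1 / 10 := by
        have : (d + 2) / 2 = d / 2 + 1 := by omega
        rw [this]; push_cast; ring
      rw [hd]
      -- if the outside variation is large we are done
      have step : ∀ n l r, n ∈ S → Half F S η n l r → lo ≤ l → l ≤ r → r ≤ hi →
          ((d / 2 : ℕ) : ℝ) / 10 ≤ vr (F n) l r →
          (∃ n ∈ S, Half F S η n lo hi ∧ ((d / 2 : ℕ) : ℝ) / 10 + 1 / 10 ≤ vr (F n) lo hi) ∨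
          vr (F n) lo l + vr (F n) r hi < 1 / 10 := by
        intro n l r hn hH hl hlr hr hv
        by_cases hcase : vr (F n) lo l + vr (F n) r hi < 1 / 10
        · exact Or.inr hcase
        · left
          push Not at hcase
          refine ⟨n, hn, hH.mono hl hr, ?_⟩
          rw [vr_add (F n) hl (hlr.trans hr), vr_add (F n) hlr hr]
          linarith
      rcases step n1 a1 b1 m1 H1 (by omega) (by omega) (by omega) v1 with h | o1
      · exact h
      rcases step n2 b1 c1 m2 H2 (by omega) (by omega) (by omega) v2 with h | o2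
      · exact h
      rcases step n3 a2 b2 m3 H3 (by omega) (by omega) (by omega) v3 with h | o3
      · exact h
      rcases step n4 b2 c2 m4 H4 (by omega) (by omega) (by omega) v4 with h | o4
      · exact h
      exfalso
      obtain ⟨k1, hk1, C1⟩ := exists_class (l := a1) (r := b1) (hi := hi) hη m1 hg h1 (by omega)
        (by omega) h4 o1
      obtain ⟨k2, hk2, C2⟩ := exists_class (l := b1) (r := c1) (hi := hi) hη m2 hg h1 (by omega)
        (by omega) h4 o2
      obtain ⟨k3, hk3, C3⟩ := exists_class (l := a2) (r := b2) (hi := hi) hη m3 hg h1 (by omega)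
        (by omega) h4 o3
      obtain ⟨k4, hk4, C4⟩ := exists_class (l := b2) (r := c2) (hi := hi) hη m4 hg h1 (by omega)
        (by omega) h4 o4
      have p12 := pair_contra hη m1 m2 lg (by omega) (by omega) (by omega) (by omega) (by omega)
        (by omega) (by omega) (by omega) C1 C2 H1 H2
      have p34 := pair_contra hη m3 m4 rg (by omega) (by omega) (by omega) (by omega) (by omega)
        (by omega) (by omega) (by omega) C3 C4 H3 H4
      have p13 := pair_contra hη m1 m3 hg (by omega) (by omega) (by omega) (by omega) (by omega)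
        (by omega) (by omega) (by omega) C1 C3 H1 H3
      have p14 := pair_contra hη m1 m4 hg (by omega) (by omega) (by omega) (by omega) (by omega)
        (by omega) (by omega) (by omega) C1 C4 H1 H4
      have p23 := pair_contra hη m2 m3 hg (by omega) (by omega) (by omega) (by omega) (by omega)
        (by omega) (by omega) (by omega) C2 C3 H2 H3
      have p24 := pair_contra hη m2 m4 hg (by omega) (by omega) (by omega) (by omega) (by omega)
        (by omega) (by omega) (by omega) C2 C4 H2 H4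
      omega

/-- the tree lower bound in the form used: bounded variation bounds the depth -/
theorem depth_le (hη : η ≤ 1 / 100) {d lo hi : ℕ} (hT : GT F S η d lo hi) {C : ℝ}
    (hC : ∀ n ∈ S, ∑ x ∈ Ico lo hi, |F n (x + 1) - F n x| ≤ C) :
    ((d / 2 : ℕ) : ℝ) ≤ 10 * C := by
  obtain ⟨n, hn, -, hv⟩ := four_leaves hη d lo hi hT
  have := hC n hn
  rw [vr] at hv
  linarith

end four

end SPB65
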