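import Mathlib

/-! Small ball estimate for Rademacher sums in a Hilbert space, by infimal convolution. -/

namespace SPB65

open Finset

/-- the sign attached to a boolean -/
def sg (b : Bool) : ℝ := if b then 1 else -1

lemma sg_true : sg true = 1 := rfl
lemma sg_false : sg false = -1 := rfl

lemma sg_sq (b : Bool) : sg b ^ 2 = 1 := by cases b <;> simp [sg]

lemma sg_mul_self (b : Bool) : sg b * sg b = 1 := by cases b <;> simp [sg]

section step

variable {H : Type*} [AddCommGroup H] [Module ℝ H]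

/-- the bilinear form after integrating one sign -/
noncomputable def stepB (B : H →ₗ[ℝ] H →ₗ[ℝ] ℝ) (a : H) : H →ₗ[ℝ] H →ₗ[ℝ] ℝ :=
  LinearMap.mk₂ ℝ (fun u v => B u v - (B a a + 1 / 4)⁻¹ * (B u a * B v a))
    (fun u u' v => by simp only [map_add, LinearMap.add_apply]; ring)
    (fun c u v => by simp only [map_smul, LinearMap.smul_apply, smul_eq_mul]; ring)
    (fun u v v' => by simp only [map_add, LinearMap.add_apply]; ring)
    (fun c u v => by simp only [map_smul, LinearMap.smul_apply, smul_eq_mul]; ring)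

lemma stepB_apply (B : H →ₗ[ℝ] H →ₗ[ℝ] ℝ) (a u v : H) :
    stepB B a u v = B u v - (B a a + 1 / 4)⁻¹ * (B u a * B v a) := rfl

lemma stepB_eq (B : H →ₗ[ℝ] H →ₗ[ℝ] ℝ) (hs : ∀ u v, B u v = B v u) {a : H} (ha : 0 ≤ B a a)
    (v : H) :
    ∃ t : ℝ, stepB B a v v = B (v - t • a) (v - t • a) + t ^ 2 / 4 := by
  refine ⟨B v a / (B a a + 1 / 4), ?_⟩
  have hp : B a a + 1 / 4 ≠ 0 := by positivity
  rw [stepB_apply]
  simp only [map_sub, map_smul, LinearMap.sub_apply, LinearMap.smul_apply, smul_eq_mul]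
  rw [hs a v]
  field_simp
  ring

lemma step_le (B : H →ₗ[ℝ] H →ₗ[ℝ] ℝ) (hs : ∀ u v, B u v = B v u) {a : H} (ha : 0 ≤ B a a)
    (ha' : B a a ≤ 1 / 4) (v : H) :
    Real.exp (-(B (v + a) (v + a))) + Real.exp (-(B (v - a) (v - a))) ≤
      2 * (Real.exp (-(B a a)) * Real.exp (-(stepB B a v v))) := by
  have e1 : -(B (v + a) (v + a)) = -(B v v + B a a) + -(2 * B v a) := by
    simp only [map_add, LinearMap.add_apply]; rw [hs a v]; ring
  have e2 : -(B (v - a) (v - a)) = -(B v v + B a a) + (2 * B v a) := by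
    simp only [map_sub, LinearMap.sub_apply]; rw [hs a v]; ring
  rw [e1, e2, Real.exp_add, Real.exp_add, ← mul_add]
  have hcosh : Real.exp (-(2 * B v a)) + Real.exp (2 * B v a) = 2 * Real.cosh (2 * B v a) := by
    rw [Real.cosh_eq]; ring
  rw [hcosh]
  have h1 : Real.cosh (2 * B v a) ≤ Real.exp ((2 * B v a) ^ 2 / 2) := Real.cosh_le_exp_half_sq _
  have h2 : (2 * B v a) ^ 2 / 2 ≤ (B a a + 1 / 4)⁻¹ * (B v a * B v a) := by
    have h3 : 2 ≤ (B a a + 1 / 4)⁻¹ := by
      rw [le_inv_comm₀ (by norm_num) (by positivity)]; linarith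
    nlinarith [mul_self_nonneg (B v a)]
  calc Real.exp (-(B v v + B a a)) * (2 * Real.cosh (2 * B v a))
      ≤ Real.exp (-(B v v + B a a)) * (2 * Real.exp ((B a a + 1 / 4)⁻¹ * (B v a * B v a))) := by
        gcongr
        exact h1.trans (Real.exp_le_exp.2 h2)
    _ = 2 * (Real.exp (-(B a a)) * Real.exp (-(stepB B a v v))) := by
        rw [stepB_apply, ← Real.exp_add, mul_left_comm, ← Real.exp_add]
        congr 2; ring

theorem small_ball_form (n : ℕ) : ∀ (B : H →ₗ[ℝ] H →ₗ[ℝ] ℝ) (_ : ∀ u v, B u v = B v u)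
    (_ : ∀ u, 0 ≤ B u u) (a : Fin n → H) (_ : ∀ i, B (a i) (a i) ≤ 1 / 4) (N : H → ℝ)
    (_ : ∀ v (t : Fin n → ℝ), N v ≤ B (v - ∑ i, t i • a i) (v - ∑ i, t i • a i) +
      (∑ i, t i ^ 2) / 4) (_ : ∀ v, 0 ≤ N v) (z : H),
    ∑ ε : Fin n → Bool, Real.exp (-(B (z + ∑ i, sg (ε i) • a i) (z + ∑ i, sg (ε i) • a i))) ≤
      2 ^ n * Real.exp (-(∑ i, N (a i))) := by
  induction n with
  | zero =>
    intro B _ hB a _ N _ _ z
    simp only [univ_unique, Finset.univ_eq_empty, Finset.sum_empty, add_zero, sum_const,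
      card_singleton, one_smul, pow_zero, neg_zero, Real.exp_zero, mul_one]
    exact Real.exp_le_one_iff.2 (by have := hB z; linarith)
  | succ n ih =>
    intro B hs hB a ha N hN hN0 z
    set B' := stepB B (a 0) with hB'
    have hs' : ∀ u v, B' u v = B' v u := by
      intro u v; rw [hB', stepB_apply, stepB_apply, hs u v]; ring
    have hnn : ∀ u, 0 ≤ B' u u := by
      intro u
      obtain ⟨t, ht⟩ := stepB_eq B hs (hB (a 0)) u
      rw [hB', ht]
      have := hB (u - t • a 0)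
      positivity
    have hle : ∀ u, B' u u ≤ B u u := by
      intro u
      rw [hB', stepB_apply]
      have h1 : 0 < B (a 0) (a 0) + 1 / 4 := by have := hB (a 0); linarith
      have := mul_nonneg (inv_pos.2 h1).le (mul_self_nonneg (B u (a 0)))
      linarith
    have key := ih B' hs' hnn (fun i => a i.succ) (fun i => (hle _).trans (ha _)) N
      (fun v t => by
        obtain ⟨s, hs1⟩ := stepB_eq B hs (hB (a 0)) (v - ∑ i, t i • a i.succ)
        rw [hB', hs1]
        have h2 := hN v (Fin.cons s t)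
        rw [Fin.sum_univ_succ, Fin.sum_univ_succ] at h2
        simp only [Fin.cons_zero, Fin.cons_succ] at h2
        have e : v - (s • a 0 + ∑ i, t i • a i.succ) = v - ∑ i, t i • a i.succ - s • a 0 := by
          abel
        rw [e] at h2
        linarith) hN0 z
    have hN0' : N (a 0) ≤ B (a 0) (a 0) := by
      have := hN (a 0) 0
      simpa using this
    rw [Fin.sum_univ_succ]
    have hsplit : ∑ ε : Fin (n + 1) → Bool,
        Real.exp (-(B (z + ∑ i, sg (ε i) • a i) (z + ∑ i, sg (ε i) • a i))) =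
        ∑ δ : Fin n → Bool,
          (Real.exp (-(B ((z + ∑ i, sg (δ i) • a i.succ) + a 0)
              ((z + ∑ i, sg (δ i) • a i.succ) + a 0))) +
            Real.exp (-(B ((z + ∑ i, sg (δ i) • a i.succ) - a 0)
              ((z + ∑ i, sg (δ i) • a i.succ) - a 0)))) := by
      rw [← (Fin.consEquiv (fun _ : Fin (n + 1) => Bool)).sum_comp, Fintype.sum_prod_type,
        Fintype.sum_bool, ← Finset.sum_add_distrib]
      refine Finset.sum_congr rfl fun δ _ => ?_
      have e1 : z + ∑ i, sg ((Fin.consEquiv (fun _ : Fin (n + 1) => Bool)) (true, δ) i) • a i =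
          (z + ∑ i, sg (δ i) • a i.succ) + a 0 := by
        rw [Fin.sum_univ_succ]
        simp only [Fin.consEquiv_apply, Fin.cons_zero, Fin.cons_succ, sg_true, one_smul]
        abel
      have e2 : z + ∑ i, sg ((Fin.consEquiv (fun _ : Fin (n + 1) => Bool)) (false, δ) i) • a i =
          (z + ∑ i, sg (δ i) • a i.succ) - a 0 := by
        rw [Fin.sum_univ_succ]
        simp only [Fin.consEquiv_apply, Fin.cons_zero, Fin.cons_succ, sg_false, neg_smul, one_smul]
        abel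
      rw [e1, e2]
    rw [hsplit]
    calc _ ≤ ∑ δ : Fin n → Bool, 2 * (Real.exp (-(B (a 0) (a 0))) *
          Real.exp (-(B' (z + ∑ i, sg (δ i) • a i.succ) (z + ∑ i, sg (δ i) • a i.succ)))) :=
          Finset.sum_le_sum fun δ _ => step_le B hs (hB _) (ha 0) _
      _ = 2 * Real.exp (-(B (a 0) (a 0))) * ∑ δ : Fin n → Bool,
          Real.exp (-(B' (z + ∑ i, sg (δ i) • a i.succ) (z + ∑ i, sg (δ i) • a i.succ))) := by
          rw [Finset.mul_sum]
          exact Finset.sum_congr rfl fun δ _ => by ring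
      _ ≤ 2 * Real.exp (-(N (a 0))) * (2 ^ n * Real.exp (-(∑ i : Fin n, N (a i.succ)))) := by
          gcongr
      _ = 2 ^ (n + 1) * Real.exp (-(N (a 0) + ∑ i : Fin n, N (a i.succ))) := by
          rw [neg_add, Real.exp_add]; ring

end step

section hilbert

variable {H : Type*} [NormedAddCommGroup H] [InnerProductSpace ℝ H]

/-- Exponential moment form of the small ball estimate, signs indexed by `Fin n`. -/
theorem small_ball_fin {n : ℕ} (a : Fin n → H) (z : H) {s lam : ℝ} (hlam : 0 ≤ lam)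
    (hs : ∀ t : Fin n → ℝ, ‖∑ i, t i • a i‖ ^ 2 ≤ s * ∑ i, t i ^ 2) (h4 : 4 * lam * s ≤ 1) :
    ∑ ε : Fin n → Bool, Real.exp (-(lam * ‖z + ∑ i, sg (ε i) • a i‖ ^ 2)) ≤
      2 ^ n * Real.exp (-(lam / 2 * ∑ i, ‖a i‖ ^ 2)) := by
  let B : H →ₗ[ℝ] H →ₗ[ℝ] ℝ := lam • (innerₗ H)
  have hB : ∀ u v, B u v = lam * inner ℝ u v := fun u v => by
    simp [B, innerₗ_apply_apply]
  have hBB : ∀ u, B u u = lam * ‖u‖ ^ 2 := fun u => by rw [hB, real_inner_self_eq_norm_sq]
  have h := small_ball_form n B (fun u v => by rw [hB, hB, real_inner_comm])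
    (fun u => by rw [hBB]; positivity) a (fun i => by
      rw [hBB]
      have h1 := hs (Pi.single i 1)
      have e1 : ∑ j, (Pi.single i (1 : ℝ) : Fin n → ℝ) j • a j = a i := by
        rw [Finset.sum_eq_single i]
        · simp
        · intro j _ hj; simp [hj]
        · simp
      have e2 : ∑ j, (Pi.single i (1 : ℝ) : Fin n → ℝ) j ^ 2 = 1 := by
        rw [Finset.sum_eq_single i]
        · simp
        · intro j _ hj; simp [hj]
        · simp
      rw [e1, e2, mul_one] at h1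
      nlinarith) (fun v => lam / 2 * ‖v‖ ^ 2) (fun v t => by
      rw [hBB]
      set w := ∑ i, t i • a i with hw
      have h1 := hs t
      rw [← hw] at h1
      have h0 : 0 ≤ ∑ i, t i ^ 2 := Finset.sum_nonneg fun i _ => sq_nonneg _
      have h2 : lam * ‖w‖ ^ 2 ≤ (∑ i, t i ^ 2) / 4 := by
        have := mul_le_mul_of_nonneg_left h1 hlam
        nlinarith
      have h3 : ‖v‖ ≤ ‖v - w‖ + ‖w‖ := by
        have := norm_add_le (v - w) w
        simpa using this
      have h4 : ‖v‖ ^ 2 ≤ 2 * (‖v - w‖ ^ 2 + ‖w‖ ^ 2) := by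
        have h5 : ‖v‖ ^ 2 ≤ (‖v - w‖ + ‖w‖) ^ 2 := pow_le_pow_left₀ (norm_nonneg _) h3 2
        nlinarith [sq_nonneg (‖v - w‖ - ‖w‖)]
      nlinarith [mul_le_mul_of_nonneg_left h4 hlam]) (fun v => by positivity) z
  simp only [hBB] at h
  rw [← Finset.mul_sum] at h
  exact h

/-- **Small ball, exponential moment form.** -/
theorem small_ball_exp {ι : Type*} [Fintype ι] [DecidableEq ι] (a : ι → H) (z : H) {s lam : ℝ} (hlam : 0 ≤ lam)
    (hs : ∀ t : ι → ℝ, ‖∑ i, t i • a i‖ ^ 2 ≤ s * ∑ i, t i ^ 2) (h4 : 4 * lam * s ≤ 1) :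
    ∑ ε : ι → Bool, Real.exp (-(lam * ‖z + ∑ i, sg (ε i) • a i‖ ^ 2)) ≤
      2 ^ Fintype.card ι * Real.exp (-(lam / 2 * ∑ i, ‖a i‖ ^ 2)) := by
  set n := Fintype.card ι with hn
  let e : Fin n ≃ ι := (Fintype.equivFin ι).symm
  have h := small_ball_fin (fun i => a (e i)) z hlam (fun t => by
    have h1 := hs (fun i => t (e.symm i))
    rw [← e.sum_comp, ← e.sum_comp] at h1
    simpa using h1) h4
  rw [e.sum_comp (fun i => ‖a i‖ ^ 2)] at h
  refine le_trans (le_of_eq ?_) h
  refine Fintype.sum_equiv (e.arrowCongr (Equiv.refl Bool)).symm _ _ fun ε => ?_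
  have : ∑ i, sg (ε i) • a i =
      ∑ i, sg (((e.arrowCongr (Equiv.refl Bool)).symm ε) i) • a (e i) := by
    rw [← e.sum_comp]
    rfl
  rw [this]

/-- **Small ball, counting form**: the number of sign patterns for which the sum is within
`HS / 2` of a given point is at most `2 ^ n * exp (-(HS ^ 2 / (16 s)))`. -/
theorem small_ball_card {ι : Type*} [Fintype ι] [DecidableEq ι] (a : ι → H) (z : H) {s : ℝ}
    (hs0 : 0 < s) (hs : ∀ t : ι → ℝ, ‖∑ i, t i • a i‖ ^ 2 ≤ s * ∑ i, t i ^ 2) :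
    ((Finset.univ.filter fun ε : ι → Bool =>
      ‖z + ∑ i, sg (ε i) • a i‖ ^ 2 ≤ (∑ i, ‖a i‖ ^ 2) / 4).card : ℝ) ≤
      2 ^ Fintype.card ι * Real.exp (-((∑ i, ‖a i‖ ^ 2) / (16 * s))) := by
  set S := ∑ i, ‖a i‖ ^ 2 with hS
  have h := small_ball_exp a z (lam := 1 / (4 * s)) (by positivity) hs (by
    have : 4 * (1 / (4 * s)) * s = 1 := by field_simp
    rw [this])
  have h1 : ((Finset.univ.filter fun ε : ι → Bool =>
      ‖z + ∑ i, sg (ε i) • a i‖ ^ 2 ≤ S / 4).card : ℝ) * Real.exp (-(1 / (4 * s) * (S / 4))) ≤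
      ∑ ε : ι → Bool, Real.exp (-(1 / (4 * s) * ‖z + ∑ i, sg (ε i) • a i‖ ^ 2)) := by
    rw [← nsmul_eq_mul, ← Finset.sum_const]
    calc _ ≤ ∑ ε ∈ Finset.univ.filter (fun ε : ι → Bool =>
          ‖z + ∑ i, sg (ε i) • a i‖ ^ 2 ≤ S / 4),
          Real.exp (-(1 / (4 * s) * ‖z + ∑ i, sg (ε i) • a i‖ ^ 2)) := by
          refine Finset.sum_le_sum fun ε hε => ?_
          rw [Finset.mem_filter] at hε
          refine Real.exp_le_exp.2 (neg_le_neg ?_)
          exact mul_le_mul_of_nonneg_left hε.2 (by positivity)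
      _ ≤ _ := Finset.sum_le_sum_of_subset_of_nonneg (Finset.filter_subset _ _)
          fun _ _ _ => (Real.exp_pos _).le
  have h2 := h1.trans h
  have h3 : 2 ^ Fintype.card ι * Real.exp (-(1 / (4 * s) / 2 * S)) =
      2 ^ Fintype.card ι * Real.exp (-(S / (16 * s))) * Real.exp (-(1 / (4 * s) * (S / 4))) := by
    rw [mul_assoc, ← Real.exp_add]
    congr 2
    field_simp
    ring
  rw [h3] at h2
  exact le_of_mul_le_mul_right h2 (Real.exp_pos _)

end hilbert

end SPB65
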